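import Pool.Agent.Lib.MP_5d404d_lc.Lists

set_option autoImplicit false

/-!
# The list of the edges of the graph of the reduction
-/

namespace Pool.Agent.Lib.MP_5d404d_lc

variable {n m : ℕ}

/-- the edges between `w` and `s` -/
def sE {φ : CNF n m} {k : ℕ} (w : Inner n m) : List (Edge φ k) :=
  (List.finRange (multS k w)).map (Edge.toS w)

/-- the edges between `w` and `t` -/
def tE {φ : CNF n m} {k : ℕ} (w : Inner n m) : List (Edge φ k) :=
  (List.finRange (multT k w)).map (Edge.toT w)

/-- all the literals -/
def litList (n : ℕ) : List (Fin n × Bool) :=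
  (List.finRange n).flatMap fun i => [(i, true), (i, false)]

/-- the edges between `p j` and the literals -/
def cE (φ : CNF n m) (k : ℕ) (j : Fin m) : List (Edge φ k) :=
  (litList n).filterMap fun l =>
    if h : l ∈ φ j then some (Edge.inner (InnerEdge.litP j ⟨l, h⟩)) else none

/-- the edges belonging to a variable -/
def varE (φ : CNF n m) (k : ℕ) (i : Fin n) : List (Edge φ k) :=
  sE (.lit i true) ++ tE (.lit i true) ++ sE (.lit i false) ++ tE (.lit i false) ++
    sE (.q i) ++ tE (.q i) ++ sE (.q' i) ++ tE (.q' i) ++
    [Edge.inner (.litQ i true), Edge.inner (.litQ i false), Edge.inner (.qq i),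
      Edge.inner (.qz i 0), Edge.inner (.qz i 1)]

/-- the edges belonging to a clause -/
def clE (φ : CNF n m) (k : ℕ) (j : Fin m) : List (Edge φ k) :=
  sE (.p j) ++ tE (.p j) ++ sE (.p' j) ++ tE (.p' j) ++ cE φ k j ++
    [Edge.inner (.pp j), Edge.inner (.pz j 0), Edge.inner (.pz j 1)]

/-- all the edges -/
def EL (φ : CNF n m) (k : ℕ) : List (Edge φ k) :=
  sE .z ++ tE .z ++ (List.finRange n).flatMap (varE φ k) ++ (List.finRange m).flatMap (clE φ k)

theorem mem_sE {φ : CNF n m} {k : ℕ} (w : Inner n m) (c : Fin (multS k w)) :
    (Edge.toS w c : Edge φ k) ∈ sE w := List.mem_map_of_mem (List.mem_finRange c)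

theorem mem_tE {φ : CNF n m} {k : ℕ} (w : Inner n m) (c : Fin (multT k w)) :
    (Edge.toT w c : Edge φ k) ∈ tE w := List.mem_map_of_mem (List.mem_finRange c)

theorem mem_litList (l : Fin n × Bool) : l ∈ litList n := by
  obtain ⟨i, b⟩ := l
  unfold litList
  rw [List.mem_flatMap]
  refine ⟨i, List.mem_finRange i, ?_⟩
  cases b <;> simp

theorem mem_EL (φ : CNF n m) (k : ℕ) (e : Edge φ k) : e ∈ EL φ k := by
  have hv : ∀ (i : Fin n) (e : Edge φ k), e ∈ varE φ k i → e ∈ EL φ k := by
    intro i e he
    unfold EL
    rw [List.mem_append, List.mem_append]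
    exact Or.inl (Or.inr (List.mem_flatMap.mpr ⟨i, List.mem_finRange i, he⟩))
  have hc : ∀ (j : Fin m) (e : Edge φ k), e ∈ clE φ k j → e ∈ EL φ k := by
    intro j e he
    unfold EL
    rw [List.mem_append]
    exact Or.inr (List.mem_flatMap.mpr ⟨j, List.mem_finRange j, he⟩)
  rcases e with ⟨w, c⟩ | ⟨w, c⟩ | f
  · have h := mem_sE (φ := φ) w c
    cases w with
    | z => unfold EL; simp only [List.mem_append]; tauto
    | lit i b =>
      refine hv i _ ?_
      unfold varE
      simp only [List.mem_append]
      cases b <;> tauto
    | p j => refine hc j _ ?_; unfold clE; simp only [List.mem_append]; tauto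
    | p' j => refine hc j _ ?_; unfold clE; simp only [List.mem_append]; tauto
    | q i => refine hv i _ ?_; unfold varE; simp only [List.mem_append]; tauto
    | q' i => refine hv i _ ?_; unfold varE; simp only [List.mem_append]; tauto
  · have h := mem_tE (φ := φ) w c
    cases w with
    | z => unfold EL; simp only [List.mem_append]; tauto
    | lit i b =>
      refine hv i _ ?_
      unfold varE
      simp only [List.mem_append]
      cases b <;> tauto
    | p j => refine hc j _ ?_; unfold clE; simp only [List.mem_append]; tauto
    | p' j => refine hc j _ ?_; unfold clE; simp only [List.mem_append]; tauto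
    | q i => refine hv i _ ?_; unfold varE; simp only [List.mem_append]; tauto
    | q' i => refine hv i _ ?_; unfold varE; simp only [List.mem_append]; tauto
  · cases f with
    | litP j l =>
      refine hc j _ ?_
      have h : (Edge.inner (InnerEdge.litP j l) : Edge φ k) ∈ cE φ k j := by
        unfold cE
        rw [List.mem_filterMap]
        refine ⟨l.1, mem_litList _, ?_⟩
        rw [dif_pos l.2]
      unfold clE
      simp only [List.mem_append]
      tauto
    | pp j => refine hc j _ ?_; unfold clE; simp
    | pz j c => refine hc j _ ?_; unfold clE; fin_cases c <;> simp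
    | litQ i b => refine hv i _ ?_; unfold varE; cases b <;> simp
    | qq i => refine hv i _ ?_; unfold varE; simp
    | qz i c => refine hv i _ ?_; unfold varE; fin_cases c <;> simp

theorem nodup_litList (n : ℕ) : (litList n).Nodup := by
  unfold litList
  rw [List.nodup_flatMap]
  refine ⟨fun i _ => by simp, ?_⟩
  refine (List.nodup_finRange n).imp ?_
  intro a b hab l hl hl'
  simp only [List.mem_cons, List.not_mem_nil, or_false] at hl hl'
  rcases hl with rfl | rfl <;> rcases hl' with h | h <;> simp_all

theorem length_cE (φ : CNF n m) (k : ℕ) (j : Fin m) : (cE φ k j).length = (φ j).card := by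
  have h1 : (cE φ k j).length = ((litList n).filter (fun l => decide (l ∈ φ j))).length := by
    unfold cE
    induction litList n with
    | nil => rfl
    | cons l L ih =>
      by_cases h : l ∈ φ j
      · rw [List.filterMap_cons_some (b := Edge.inner (InnerEdge.litP j ⟨l, h⟩)) (by rw [dif_pos h]),
          List.filter_cons_of_pos (by simpa using h), List.length_cons, List.length_cons, ih]
      · rw [List.filterMap_cons_none (by rw [dif_neg h]),
          List.filter_cons_of_neg (by simpa using h), ih]
  have h2 : ((litList n).filter (fun l => decide (l ∈ φ j))).toFinset = φ j := by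
    ext l
    simp [mem_litList]
  rw [h1, ← List.toFinset_card_of_nodup ((nodup_litList n).filter _), h2]

theorem length_EL (φ : CNF n m) {k : ℕ} (hk : 2 ≤ k) :
    (EL φ k).length + m = 8 * n * k + 4 * m * k + 2 * k + n + ∑ j, (φ j).card := by
  have hs : ∀ w : Inner n m, (sE w : List (Edge φ k)).length = multS k w := by
    intro w; simp [sE]
  have ht : ∀ w : Inner n m, (tE w : List (Edge φ k)).length = multT k w := by
    intro w; simp [tE]
  obtain ⟨k', rfl⟩ := Nat.exists_eq_add_of_le hk
  have h4 : 2 + k' - 1 = k' + 1 := by omega
  have h5 : 2 + k' - 2 = k' := by omega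
  have h1 : ∀ i : Fin n, (varE φ (2 + k') i).length = 8 * k' + 17 := by
    intro i
    unfold varE
    simp only [List.length_append, hs, ht, multS, multT, List.length_cons, List.length_nil, h4, h5]
    omega
  have h2 : ∀ j : Fin m, (clE φ (2 + k') j).length = 4 * k' + 7 + (φ j).card := by
    intro j
    unfold clE
    simp only [List.length_append, hs, ht, multS, multT, List.length_cons, List.length_nil, h4, h5,
      length_cE]
    omega
  unfold EL
  rw [List.length_append, List.length_append, List.length_append, hs, ht, List.length_flatMap,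
    List.length_flatMap]
  simp only [h1, h2, multS, multT]
  have h6 : ((List.finRange n).map fun _ => 8 * k' + 17).sum = n * (8 * k' + 17) := by
    simp
  have h7 : ((List.finRange m).map fun j => 4 * k' + 7 + (φ j).card).sum =
      m * (4 * k' + 7) + ∑ j, (φ j).card := by
    rw [← List.sum_toFinset _ (List.nodup_finRange m)]
    rw [List.toFinset_finRange, Finset.sum_add_distrib]
    simp
  rw [h6, h7]
  ring

instance finiteEdge (φ : CNF n m) (k : ℕ) : Finite (Edge φ k) := by
  have : Fintype (Inner n m) := Fintype.ofEquiv _ (innerEquiv n m).symm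
  exact Finite.of_equiv _ ((edgeEquiv φ k).trans (Equiv.sumCongr (Equiv.refl _)
    (Equiv.sumCongr (Equiv.refl _) (innerEdgeEquiv φ)))).symm

end Pool.Agent.Lib.MP_5d404d_lc
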