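import Pool.Agent.Lib.MP_5d404d_lc.EdgeList
import Pool.Agent.Lib.PolyTime

set_option autoImplicit false

/-!
# The reduction is computable in polynomial time
-/

namespace Pool.Agent.Lib.MP_5d404d_lc

open Pool.Agent.Lib.PolyTime

/-! ### The raw list of edges -/

/-- `c` edges between `w` and `s` (vertex `0`) -/
def rs (c w : ℕ) : List (ℕ × ℕ) := (List.replicate c ()).map fun _ => (w, 0)

/-- `c` edges between `w` and `t` (vertex `1`) -/
def rt (c w : ℕ) : List (ℕ × ℕ) := (List.replicate c ()).map fun _ => (w, 1)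

/-- the edges belonging to a variable -/
def rawVar (k n m i : ℕ) : List (ℕ × ℕ) :=
  rs k (vLit i true) ++ rt k (vLit i true) ++ rs k (vLit i false) ++ rt k (vLit i false) ++
    rs k (vQ n m i) ++ rt (k - 1) (vQ n m i) ++ rs (k - 2) (vQ' n m i) ++
    rt (k - 1) (vQ' n m i) ++
    [(vQ n m i, vLit i true), (vQ n m i, vLit i false), (vQ n m i, vQ' n m i),
      (vQ' n m i, 2), (vQ' n m i, 2)]

/-- all the literals -/
def rawLits (n : ℕ) : List (ℕ × Bool) := (List.range n).flatMap fun i => [(i, true), (i, false)]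

/-- the edges belonging to a clause -/
def rawCl (k n : ℕ) (c : List (ℕ × Bool)) (j : ℕ) : List (ℕ × ℕ) :=
  rs (k - 1) (vP n j) ++ rt k (vP n j) ++ rs (k - 1) (vP' n j) ++ rt (k - 2) (vP' n j) ++
    ((rawLits n).filter fun l => c.any fun l' => decide (l = l')).map
      (fun l => (vP n j, vLit l.1 l.2)) ++
    [(vP n j, vP' n j), (vP' n j, 2), (vP' n j, 2)]

/-- the clause number `j` -/
def clause (φ : Formula) (j : ℕ) : List (ℕ × Bool) := match φ[j]? with
  | none => []
  | some c => c

/-- all the edges -/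
def rawEdges (k : ℕ) (φ : Formula) : List (ℕ × ℕ) :=
  rs k 2 ++ rt k 2 ++ (List.range (nv φ)).flatMap (rawVar k (nv φ) φ.length) ++
    (List.range φ.length).flatMap (fun j => rawCl k (nv φ) (clause φ j) j)

variable {n m : ℕ}

/-- the numbers of the ends of an edge -/
def ends {φ : CNF n m} {k : ℕ} (e : Edge φ k) : ℕ × ℕ :=
  (num ((graph φ k).fst e), num ((graph φ k).snd e))

theorem map_sE {φ : CNF n m} {k : ℕ} (w : Inner n m) :
    (sE w : List (Edge φ k)).map ends = rs (multS k w) (numI w) := by
  unfold sE rs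
  rw [List.map_map, List.map_replicate]
  refine List.eq_replicate_iff.mpr ⟨by simp, fun b hb => ?_⟩
  obtain ⟨c, -, rfl⟩ := List.mem_map.mp hb
  rfl

theorem map_tE {φ : CNF n m} {k : ℕ} (w : Inner n m) :
    (tE w : List (Edge φ k)).map ends = rt (multT k w) (numI w) := by
  unfold tE rt
  rw [List.map_map, List.map_replicate]
  refine List.eq_replicate_iff.mpr ⟨by simp, fun b hb => ?_⟩
  obtain ⟨c, -, rfl⟩ := List.mem_map.mp hb
  rfl

theorem map_varE (φ : CNF n m) (k : ℕ) (i : Fin n) :
    (varE φ k i).map ends = rawVar k n m i := by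
  unfold varE rawVar
  simp only [List.map_append, map_sE, map_tE, List.map_cons, List.map_nil]
  rfl

theorem flatMap_finRange {α : Type} (n : ℕ) (f : ℕ → List α) :
    (List.finRange n).flatMap (fun i : Fin n => f i.val) = (List.range n).flatMap f := by
  have h : List.range n = (List.finRange n).map Fin.val := by
    rw [List.map_coe_finRange_eq_range]
  rw [h, List.flatMap_map]

theorem map_litList (n : ℕ) : (litList n).map (fun l => (l.1.val, l.2)) = rawLits n := by
  unfold litList rawLits
  rw [List.map_flatMap]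
  exact flatMap_finRange n (fun i => [(i, true), (i, false)])

theorem clause_eq (φ : Formula) (j : Fin φ.length) : clause φ j = φ.get j := by
  unfold clause
  rw [List.getElem?_eq_getElem j.2]
  rfl

theorem map_cE (φ : Formula) (k : ℕ) (j : Fin φ.length) :
    (cE (toCNF φ) k j).map ends =
      ((rawLits (nv φ)).filter fun l => (clause φ j).any fun l' => decide (l = l')).map
      (fun l => (vP (nv φ) j, vLit l.1 l.2)) := by
  unfold cE
  rw [← map_litList, clause_eq]
  induction litList (nv φ) with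
  | nil => rfl
  | cons l L ih =>
    rw [List.map_cons]
    by_cases h : l ∈ toCNF φ j
    · rw [List.filterMap_cons_some (b := Edge.inner (InnerEdge.litP j ⟨l, h⟩)) (by rw [dif_pos h]),
        List.map_cons, ih, List.filter_cons_of_pos, List.map_cons]
      · rfl
      · rw [mem_toCNF] at h
        rw [List.any_eq_true]
        exact ⟨_, h, by simp⟩
    · rw [List.filterMap_cons_none (by rw [dif_neg h]), ih, List.filter_cons_of_neg]
      rw [mem_toCNF] at h
      rw [List.any_eq_true]
      rintro ⟨l', h1, h2⟩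
      rw [decide_eq_true_eq] at h2
      rw [h2] at h
      exact h h1

theorem map_clE (φ : Formula) (k : ℕ) (j : Fin φ.length) :
    (clE (toCNF φ) k j).map ends = rawCl k (nv φ) (clause φ j) j := by
  unfold clE rawCl
  simp only [List.map_append, map_sE, map_tE, map_cE, List.map_cons, List.map_nil]
  rfl

theorem map_EL (φ : Formula) (k : ℕ) : (EL (toCNF φ) k).map ends = rawEdges k φ := by
  unfold EL rawEdges
  simp only [List.map_append, map_sE, map_tE, List.map_flatMap, map_varE, map_clE]
  rw [flatMap_finRange (nv φ) (rawVar k (nv φ) φ.length),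
    flatMap_finRange φ.length (fun j => rawCl k (nv φ) (clause φ j) j)]
  rfl

/-! ### Polynomial time -/

section PT

variable {α : Type} [Enc α]

theorem pt_lit {f : α → ℕ} {g : α → Bool} (hf : PT f) (hg : PT g) :
    PT (fun a => vLit (f a) (g a)) := by
  exact (hf.mulConst 2).add (PT.cond hg (PT.const 3) (PT.const 4))

theorem pt_vP {f g : α → ℕ} (hf : PT f) (hg : PT g) : PT (fun a => vP (f a) (g a)) :=
  ((hf.mulConst 2).add (hg.mulConst 2)).addConst 3

theorem pt_vP' {f g : α → ℕ} (hf : PT f) (hg : PT g) : PT (fun a => vP' (f a) (g a)) :=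
  ((hf.mulConst 2).add (hg.mulConst 2)).addConst 4

theorem pt_vQ {f g h : α → ℕ} (hf : PT f) (hg : PT g) (hh : PT h) :
    PT (fun a => vQ (f a) (g a) (h a)) :=
  (((hf.mulConst 2).add (hg.mulConst 2)).add (hh.mulConst 2)).addConst 3

theorem pt_vQ' {f g h : α → ℕ} (hf : PT f) (hg : PT g) (hh : PT h) :
    PT (fun a => vQ' (f a) (g a) (h a)) :=
  (((hf.mulConst 2).add (hg.mulConst 2)).add (hh.mulConst 2)).addConst 4

theorem pt_rs (c : ℕ) {f : α → ℕ} (hf : PT f) : PT (fun a => rs c (f a)) :=
  PT.map (f := fun _ => List.replicate c ()) (g := fun a _ => (f a, 0)) (PT.const _)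
    ((hf.comp PT.fst).pair (PT.const 0))

theorem pt_rt (c : ℕ) {f : α → ℕ} (hf : PT f) : PT (fun a => rt c (f a)) :=
  PT.map (f := fun _ => List.replicate c ()) (g := fun a _ => (f a, 1)) (PT.const _)
    ((hf.comp PT.fst).pair (PT.const 1))

theorem pt_nv : PT nv := by
  unfold nv
  refine PT.length ?_
  refine PT.flatMap (f := fun φ : Formula => φ)
    (g := fun _ c => c.flatMap fun l => List.range (l.1 + 1)) PT.id ?_
  exact PT.flatMap (f := fun x : Formula × List (ℕ × Bool) => x.2)
    (g := fun _ l => List.range (l.1 + 1)) PT.snd (PT.range (PT.succ PT.snd.fst'))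

theorem pt_rawVar (k : ℕ) {f g h : α → ℕ} (hf : PT f) (hg : PT g) (hh : PT h) :
    PT (fun a => rawVar k (f a) (g a) (h a)) := by
  have h1 := pt_lit hh (PT.const true)
  have h2 := pt_lit hh (PT.const false)
  have h3 := pt_vQ hf hg hh
  have h4 := pt_vQ' hf hg hh
  have h5 : PT (fun a => [(vQ (f a) (g a) (h a), vLit (h a) true),
      (vQ (f a) (g a) (h a), vLit (h a) false), (vQ (f a) (g a) (h a), vQ' (f a) (g a) (h a)),
      (vQ' (f a) (g a) (h a), 2), (vQ' (f a) (g a) (h a), 2)]) :=
    (h3.pair h1).cons ((h3.pair h2).cons ((h3.pair h4).cons ((h4.pair (PT.const 2)).cons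
      ((h4.pair (PT.const 2)).cons (PT.const [])))))
  unfold rawVar
  exact ((((((((pt_rs k h1).append (pt_rt k h1)).append (pt_rs k h2)).append
    (pt_rt k h2)).append (pt_rs k h3)).append (pt_rt (k - 1) h3)).append
    (pt_rs (k - 2) h4)).append (pt_rt (k - 1) h4)).append h5

theorem pt_rawLits {f : α → ℕ} (hf : PT f) : PT (fun a => rawLits (f a)) :=
  PT.flatMap (f := fun a => List.range (f a)) (g := fun _ i => [(i, true), (i, false)])
    (PT.range hf) ((PT.snd.pair (PT.const true)).cons ((PT.snd.pair (PT.const false)).cons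
      (PT.const [])))

theorem pt_rawCl (k : ℕ) {f g : α → ℕ} {c : α → List (ℕ × Bool)} (hf : PT f) (hg : PT g)
    (hc : PT c) : PT (fun a => rawCl k (f a) (c a) (g a)) := by
  have h1 := pt_vP hf hg
  have h2 := pt_vP' hf hg
  have h3 : PT (fun a => (rawLits (f a)).filter fun l => (c a).any fun l' => decide (l = l')) := by
    refine PT.filter (f := fun a => rawLits (f a))
      (p := fun a l => (c a).any fun l' => decide (l = l')) (pt_rawLits hf) ?_
    refine PT.any (f := fun x : α × (ℕ × Bool) => c x.1) (p := fun x l' => decide (x.2 = l'))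
      (hc.comp PT.fst) ?_
    exact PT.eq PT.fst.snd' PT.snd
  have h4 := PT.map (g := fun a l => (vP (f a) (g a), vLit l.1 l.2)) h3
    ((pt_vP (hf.comp PT.fst) (hg.comp PT.fst)).pair (pt_lit PT.snd.fst' PT.snd.snd'))
  have h5 : PT (fun a => [(vP (f a) (g a), vP' (f a) (g a)), (vP' (f a) (g a), 2),
      (vP' (f a) (g a), 2)]) :=
    (h1.pair h2).cons ((h2.pair (PT.const 2)).cons ((h2.pair (PT.const 2)).cons (PT.const [])))
  unfold rawCl
  exact (((((pt_rs (k - 1) h1).append (pt_rt k h1)).append (pt_rs (k - 1) h2)).append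
    (pt_rt (k - 2) h2)).append h4).append h5

theorem pt_clause {f : α → Formula} {g : α → ℕ} (hf : PT f) (hg : PT g) :
    PT (fun a => clause (f a) (g a)) :=
  (PT.optCases (g := fun _ => []) (h := fun _ c => c) (PT.getElem? hg hf) (PT.const [])
    PT.snd).congr (fun a => by unfold clause; cases (f a)[g a]? <;> rfl)

theorem pt_rawEdges (k : ℕ) : PT (rawEdges k) := by
  have hn : PT nv := pt_nv
  have hm : PT (fun φ : Formula => φ.length) := PT.length PT.id
  have h1 : PT (fun φ : Formula => (List.range (nv φ)).flatMap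
      (rawVar k (nv φ) φ.length)) :=
    PT.flatMap (g := fun φ i => rawVar k (nv φ) (List.length φ) i) (PT.range hn)
      (pt_rawVar k (hn.comp PT.fst) (hm.comp PT.fst) PT.snd)
  have h2 : PT (fun φ : Formula => (List.range φ.length).flatMap
      (fun j => rawCl k (nv φ) (clause φ j) j)) :=
    PT.flatMap (g := fun φ j => rawCl k (nv φ) (clause φ j) j) (PT.range hm)
      (pt_rawCl k (hn.comp PT.fst) PT.snd (pt_clause PT.fst PT.snd))
  unfold rawEdges
  exact (((PT.const _).append (PT.const _)).append h1).append h2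

end PT

/-! ### Encoding of instances -/

/-- The data of an instance of ACYC-ST. -/
def Inst.data (I : Inst) : ℕ × List (ℕ × ℕ) × ℕ × ℕ × ℕ :=
  (I.n, I.edges.map (fun e => (e.1.val, e.2.val)), I.s.val, I.t.val, I.k)

theorem Inst.data_injective : Function.Injective Inst.data := by
  rintro ⟨n, e, s, t, k⟩ ⟨n', e', s', t', k'⟩ h
  simp only [Inst.data, Prod.mk.injEq] at h
  obtain ⟨h1, h2, h3, h4, h5⟩ := h
  subst h1
  subst h5
  have h6 : e = e' := by
    refine (List.map_inj_right ?_).mp h2
    intro x y hxy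
    simp only [Prod.mk.injEq] at hxy
    exact Prod.ext (Fin.ext hxy.1) (Fin.ext hxy.2)
  rw [h6, Fin.ext h3, Fin.ext h4]

instance encInst : Enc Inst := Enc.ofInj Inst.data Inst.data_injective

/-- The reduction. -/
noncomputable def red (k : ℕ) (φ : Formula) : Inst where
  n := 4 * nv φ + 2 * φ.length + 3
  edges := (EL (toCNF φ) k).map fun e =>
    (eV _ _ ((graph (toCNF φ) k).fst e), eV _ _ ((graph (toCNF φ) k).snd e))
  s := eV _ _ .s
  t := eV _ _ .t
  k := k

theorem red_data (k : ℕ) (φ : Formula) :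
    (red k φ).data = (4 * nv φ + 2 * φ.length + 3, rawEdges k φ, 0, 1, k) := by
  unfold Inst.data red
  simp only [List.map_map, Prod.mk.injEq]
  refine ⟨trivial, ?_, rfl, rfl, trivial⟩
  rw [← map_EL]
  rfl

theorem pt_red (k : ℕ) : PT (red k) := by
  have h : PT (fun φ : Formula => (4 * nv φ + 2 * φ.length + 3, rawEdges k φ, 0, 1, k)) :=
    (((pt_nv.mulConst 4).add ((PT.length PT.id).mulConst 2)).addConst 3).pair
      ((pt_rawEdges k).pair ((PT.const 0).pair ((PT.const 1).pair (PT.const k))))
  obtain ⟨K, i1, i2, P, k₀, T, hT⟩ := h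
  refine ⟨K, i1, i2, P, k₀, T, fun φ => ?_⟩
  have e : code (red k φ) =
      code ((4 * nv φ + 2 * φ.length + 3, rawEdges k φ, 0, 1, k) :
        ℕ × List (ℕ × ℕ) × ℕ × ℕ × ℕ) := by
    rw [← red_data]
    rfl
  rw [e]
  exact hT φ

theorem red_yes {k : ℕ} (hk : 2 ≤ k) (φ : Formula) : φ.Sat ↔ (red k φ).Yes := by
  classical
  have : Fintype (Edge (toCNF φ) k) := Fintype.ofFinite _
  have h1 : (EL (toCNF φ) k).length = Fintype.card (Edge (toCNF φ) k) := by
    have h2 := length_EL (toCNF φ) hk
    have h3 := card_edge (toCNF φ) hk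
    rw [Nat.card_eq_fintype_card] at h3
    omega
  rw [sat_iff, (reduction k hk (toCNF φ)).1]
  exact (yes_iff (graph (toCNF φ) k) .s .t k (eV _ _) (EL (toCNF φ) k) (mem_EL _ _) h1).symm

end Pool.Agent.Lib.MP_5d404d_lc
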