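import Pool.Agent.Lib.MP_5d404d_lc.Reduction

set_option autoImplicit false

/-!
# Instances of ACYC-ST given by lists of edges, and the reduction on such instances
-/

namespace Pool.Agent.Lib.MP_5d404d_lc

/-! ### Isomorphic multigraphs -/

section Iso

variable {V E V' E' : Type}

theorem isWalk_map {T H : E → V} {T' H' : E' → V'} (eV : V ≃ V') (eE : E ≃ E')
    (hT : ∀ e, T' (eE e) = eV (T e)) (hH : ∀ e, H' (eE e) = eV (H e)) :
    ∀ {u : V} {l : List E} {v : V}, IsWalk T H u l v →
      IsWalk T' H' (eV u) (l.map eE) (eV v)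
  | u, [], v, h => by
    have : u = v := h
    subst this
    exact rfl
  | u, e :: l, v, h => by
    refine ⟨by rw [hT, h.1], ?_⟩
    rw [hH]
    exact isWalk_map eV eE hT hH h.2

theorem isPath_map {T H : E → V} {T' H' : E' → V'} (eV : V ≃ V') (eE : E ≃ E')
    (hT : ∀ e, T' (eE e) = eV (T e)) (hH : ∀ e, H' (eE e) = eV (H e))
    {u : V} {l : List E} {v : V} (h : IsPath T H u l v) :
    IsPath T' H' (eV u) (l.map eE) (eV v) := by
  refine ⟨isWalk_map eV eE hT hH h.1, ?_⟩
  have h1 : (l.map eE).map H' = (l.map H).map eV := by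
    rw [List.map_map, List.map_map]
    exact List.map_congr_left (fun e _ => hH e)
  rw [h1, ← List.map_cons]
  exact h.2.map eV.injective

theorem edgeDisjointPaths_map {T H : E → V} {T' H' : E' → V'} (eV : V ≃ V') (eE : E ≃ E')
    (hT : ∀ e, T' (eE e) = eV (T e)) (hH : ∀ e, H' (eE e) = eV (H e))
    {k : ℕ} {u v : V} (h : EdgeDisjointPaths T H k u v) :
    EdgeDisjointPaths T' H' k (eV u) (eV v) := by
  obtain ⟨P, h1, h2⟩ := h
  refine ⟨fun i => (P i).map eE, fun i => isPath_map eV eE hT hH (h1 i), fun i j hij => ?_⟩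
  intro e he he'
  obtain ⟨a, ha, rfl⟩ := List.mem_map.mp he
  obtain ⟨b, hb, h3⟩ := List.mem_map.mp he'
  rw [eE.injective h3] at hb
  exact h2 i j hij ha hb

theorem acyclic_map {T H : E → V} {T' H' : E' → V'} (eV : V ≃ V') (eE : E ≃ E')
    (hT : ∀ e, T' (eE e) = eV (T e)) (hH : ∀ e, H' (eE e) = eV (H e))
    (h : Acyclic T H) : Acyclic T' H' := by
  intro v' hv'
  refine h (eV.symm v') ?_
  have key : ∀ a b, Arc T' H' a b → Arc T H (eV.symm a) (eV.symm b) := ?_
  · exact Relation.TransGen.lift eV.symm key _ _ hv'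
  rintro a b ⟨e', h1, h2⟩
  refine ⟨eE.symm e', ?_, ?_⟩
  · apply eV.injective
    rw [← hT, Equiv.apply_symm_apply, Equiv.apply_symm_apply, h1]
  · apply eV.injective
    rw [← hH, Equiv.apply_symm_apply, Equiv.apply_symm_apply, h2]

theorem acycST_map {G : MGraph V E} {G' : MGraph V' E'} (eV : V ≃ V') (eE : E ≃ E')
    (h1 : ∀ e, G'.fst (eE e) = eV (G.fst e)) (h2 : ∀ e, G'.snd (eE e) = eV (G.snd e))
    {s t : V} {k : ℕ} (h : AcycST G s t k) : AcycST G' (eV s) (eV t) k := by
  obtain ⟨o, ho1, ho2⟩ := h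
  have hT : ∀ e, G'.tail (fun e' => o (eE.symm e')) (eE e) = eV (G.tail o e) := by
    intro e
    simp only [MGraph.tail, Equiv.symm_apply_apply]
    split_ifs
    · exact h1 e
    · exact h2 e
  have hH : ∀ e, G'.head (fun e' => o (eE.symm e')) (eE e) = eV (G.head o e) := by
    intro e
    simp only [MGraph.head, Equiv.symm_apply_apply]
    split_ifs
    · exact h2 e
    · exact h1 e
  refine ⟨fun e' => o (eE.symm e'), acyclic_map eV eE hT hH ho1, fun v' hs ht => ?_⟩
  obtain ⟨v, rfl⟩ := eV.surjective v'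
  obtain ⟨h3, h4⟩ := ho2 v (fun h => hs (by rw [h])) (fun h => ht (by rw [h]))
  exact ⟨edgeDisjointPaths_map eV eE hT hH h3, edgeDisjointPaths_map eV eE hT hH h4⟩

theorem acycST_iff {G : MGraph V E} {G' : MGraph V' E'} (eV : V ≃ V') (eE : E ≃ E')
    (h1 : ∀ e, G'.fst (eE e) = eV (G.fst e)) (h2 : ∀ e, G'.snd (eE e) = eV (G.snd e))
    {s t : V} {k : ℕ} : AcycST G s t k ↔ AcycST G' (eV s) (eV t) k := by
  refine ⟨acycST_map eV eE h1 h2, fun h => ?_⟩
  have h3 := acycST_map (G := G') (G' := G) eV.symm eE.symm (fun e => by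
    obtain ⟨e, rfl⟩ := eE.surjective e
    rw [Equiv.symm_apply_apply, h1, Equiv.symm_apply_apply]) (fun e => by
    obtain ⟨e, rfl⟩ := eE.surjective e
    rw [Equiv.symm_apply_apply, h2, Equiv.symm_apply_apply]) h
  simpa using h3

end Iso

/-! ### Instances -/

/-- An instance of ACYC-ST: a graph with vertices `0, ..., n-1` given by the list of its edges
(parallel edges are allowed), two vertices `s`, `t` and a number `k`. -/
structure Inst where
  /-- number of vertices -/
  n : ℕ
  /-- list of edges -/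
  edges : List (Fin n × Fin n)
  /-- the vertex `s` -/
  s : Fin n
  /-- the vertex `t` -/
  t : Fin n
  /-- the number `k` -/
  k : ℕ

/-- The graph of an instance. -/
def Inst.graph (I : Inst) : MGraph (Fin I.n) (Fin I.edges.length) where
  fst e := (I.edges.get e).1
  snd e := (I.edges.get e).2

/-- The instance `I` is a yes-instance of ACYC-ST. -/
def Inst.Yes (I : Inst) : Prop := AcycST I.graph I.s I.t I.k

/-- If all the edges of `G` are enumerated in a list with the right length, then the list of their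
end points gives an isomorphic graph. -/
theorem yes_iff {V E : Type} [Fintype E] (G : MGraph V E) (s t : V) (k : ℕ) {N : ℕ}
    (eV : V ≃ Fin N) (L : List E) (hL : ∀ e, e ∈ L) (hc : L.length = Fintype.card E) :
    (Inst.mk N (L.map fun e => (eV (G.fst e), eV (G.snd e))) (eV s) (eV t) k).Yes ↔
      AcycST G s t k := by
  classical
  let I : Inst := Inst.mk N (L.map fun e => (eV (G.fst e), eV (G.snd e))) (eV s) (eV t) k
  have hlen : I.edges.length = L.length := List.length_map _
  let g : Fin I.edges.length → E := fun i => L.get (i.cast hlen)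
  have hg : Function.Bijective g := by
    rw [Fintype.bijective_iff_surjective_and_card]
    constructor
    · intro e
      obtain ⟨i, hi⟩ := List.get_of_mem (hL e)
      exact ⟨i.cast hlen.symm, by simpa [g] using hi⟩
    · rw [Fintype.card_fin, hlen, hc]
  let eE : E ≃ Fin I.edges.length := (Equiv.ofBijective g hg).symm
  have h1 : ∀ e, I.edges.get (eE e) = (eV (G.fst e), eV (G.snd e)) := by
    intro e
    have h2 : g (eE e) = e := Equiv.ofBijective_apply_symm_apply g hg e
    have h3 : I.edges.get (eE e) =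
        (fun e => (eV (G.fst e), eV (G.snd e))) (L.get ((eE e).cast hlen)) :=
      List.getElem_map _
    rw [h3]
    have h4 : L.get ((eE e).cast hlen) = e := h2
    rw [h4]
  exact (acycST_iff eV eE (fun e => by
    show (I.edges.get (eE e)).1 = _
    rw [h1]) (fun e => by
    show (I.edges.get (eE e)).2 = _
    rw [h1])).symm

end Pool.Agent.Lib.MP_5d404d_lc
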