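import Pool.Agent.Lib.MP_5d404d_lc.Instance

set_option autoImplicit false

/-!
# The reduction on formulas and graphs given by lists
-/

namespace Pool.Agent.Lib.MP_5d404d_lc

/-- A CNF formula in the variables `x_0, x_1, ...`, given as the list of its clauses, each clause
being the list of its literals; `(i, true)` stands for `x_i` and `(i, false)` for its negation. -/
abbrev Formula : Type := List (List (ℕ × Bool))

/-- The formula is satisfiable. -/
def Formula.Sat (φ : Formula) : Prop := ∃ τ : ℕ → Bool, ∀ c ∈ φ, ∃ l ∈ c, τ l.1 = l.2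

/-- A bound for the indices of the variables of a formula. -/
def nv (φ : Formula) : ℕ :=
  (φ.flatMap fun c => c.flatMap fun l => List.range (l.1 + 1)).length

theorem le_sum_of_mem : ∀ (l : List ℕ) (a : ℕ), a ∈ l → a ≤ l.sum
  | [], a, h => absurd h (by simp)
  | b :: l, a, h => by
    rw [List.sum_cons]
    rcases List.mem_cons.mp h with rfl | h
    · omega
    · have := le_sum_of_mem l a h
      omega

theorem lt_nv {φ : Formula} {c : List (ℕ × Bool)} (hc : c ∈ φ) {l : ℕ × Bool} (hl : l ∈ c) :
    l.1 < nv φ := by
  unfold nv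
  rw [List.length_flatMap]
  have h1 := le_sum_of_mem (φ.map fun c => (c.flatMap fun l => List.range (l.1 + 1)).length) _
    (List.mem_map_of_mem hc)
  rw [List.length_flatMap] at h1
  have h2 := le_sum_of_mem (c.map fun l => (List.range (l.1 + 1)).length) _
    (List.mem_map_of_mem hl)
  rw [List.length_range] at h2
  omega

/-- The formula with variables and clauses indexed by finite types. -/
def toCNF (φ : Formula) : CNF (nv φ) φ.length := fun j =>
  Finset.univ.filter fun l : Fin (nv φ) × Bool => (l.1.val, l.2) ∈ φ.get j

theorem mem_toCNF {φ : Formula} {j : Fin φ.length} {l : Fin (nv φ) × Bool} :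
    l ∈ toCNF φ j ↔ (l.1.val, l.2) ∈ φ.get j := by
  simp [toCNF]

theorem sat_iff (φ : Formula) : φ.Sat ↔ Satisfiable (toCNF φ) := by
  constructor
  · rintro ⟨τ, h⟩
    refine ⟨fun i => τ i, fun j => ?_⟩
    obtain ⟨l, hl, h1⟩ := h (φ.get j) (List.get_mem φ j)
    exact ⟨(⟨l.1, lt_nv (List.get_mem φ j) hl⟩, l.2), mem_toCNF.mpr hl, h1⟩
  · rintro ⟨τ, h⟩
    classical
    refine ⟨fun i => if hi : i < nv φ then τ ⟨i, hi⟩ else false, fun c hc => ?_⟩
    obtain ⟨j, rfl⟩ := List.get_of_mem hc
    obtain ⟨l, hl, h1⟩ := h j
    refine ⟨_, mem_toCNF.mp hl, ?_⟩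
    simp [h1]

/-! ### Numbering of the vertices -/

/-- the number of a literal -/
def vLit (i : ℕ) (b : Bool) : ℕ := 2 * i + (if b then 3 else 4)
/-- the number of `p j` -/
def vP (n j : ℕ) : ℕ := 2 * n + 2 * j + 3
/-- the number of `p' j` -/
def vP' (n j : ℕ) : ℕ := 2 * n + 2 * j + 4
/-- the number of `q i` -/
def vQ (n m i : ℕ) : ℕ := 2 * n + 2 * m + 2 * i + 3
/-- the number of `q' i` -/
def vQ' (n m i : ℕ) : ℕ := 2 * n + 2 * m + 2 * i + 4

/-- The number of an inner vertex. -/
def numI {n m : ℕ} : Inner n m → ℕ
  | .z => 2
  | .lit i b => vLit i b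
  | .p j => vP n j
  | .p' j => vP' n j
  | .q i => vQ n m i
  | .q' i => vQ' n m i

/-- The number of a vertex. -/
def num {n m : ℕ} : Vtx n m → ℕ
  | .s => 0
  | .t => 1
  | .inner w => numI w

theorem num_lt {n m : ℕ} (v : Vtx n m) : num v < 4 * n + 2 * m + 3 := by
  rcases v with _ | _ | w
  · simp [num]
  · simp [num]
  · cases w with
    | z => simp [num, numI]
    | lit i b => have := i.2; cases b <;> simp [num, numI, vLit] <;> omega
    | p j => have := j.2; simp [num, numI, vP]; omega
    | p' j => have := j.2; simp [num, numI, vP']; omega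
    | q i => have := i.2; simp [num, numI, vQ]; omega
    | q' i => have := i.2; simp [num, numI, vQ']; omega

theorem num_injective {n m : ℕ} : Function.Injective (num : Vtx n m → ℕ) := by
  intro v v' h
  rcases v with _ | _ | w <;> rcases v' with _ | _ | w'
  · rfl
  · simp [num] at h
  · exfalso
    cases w' with
    | lit i b => cases b <;> simp [num, numI, vLit] at h
    | _ => simp [num, numI, vP, vP', vQ, vQ'] at h
  · simp [num] at h
  · rfl
  · exfalso
    cases w' with
    | lit i b => cases b <;> simp [num, numI, vLit] at h <;> omega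
    | _ => simp [num, numI, vP, vP', vQ, vQ'] at h
  · exfalso
    cases w with
    | lit i b => cases b <;> simp [num, numI, vLit] at h
    | _ => simp [num, numI, vP, vP', vQ, vQ'] at h
  · exfalso
    cases w with
    | lit i b => cases b <;> simp [num, numI, vLit] at h <;> omega
    | _ => simp [num, numI, vP, vP', vQ, vQ'] at h
  · congr 1
    cases w with
    | z => cases w' with
      | z => rfl
      | lit i' b' => cases b' <;> simp [num, numI, vLit] at h <;> omega
      | _ => simp [num, numI, vP, vP', vQ, vQ'] at h <;> omega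
    | lit i b => cases w' with
      | lit i' b' =>
        have : i = i' ∧ b = b' := by
          cases b <;> cases b' <;> simp [num, numI, vLit, Fin.ext_iff] at h ⊢ <;> omega
        rw [this.1, this.2]
      | _ => have := i.2; cases b <;> simp [num, numI, vLit, vP, vP', vQ, vQ'] at h <;> omega
    | p j => cases w' with
      | p j' => simp only [num, numI, vP] at h; congr 1; exact Fin.ext (by omega)
      | lit i' b' => have := i'.2; cases b' <;> simp [num, numI, vLit, vP] at h <;> omega
      | _ => have := j.2; simp [num, numI, vP, vP', vQ, vQ'] at h <;> omega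
    | p' j => cases w' with
      | p' j' => simp only [num, numI, vP'] at h; congr 1; exact Fin.ext (by omega)
      | lit i' b' => have := i'.2; cases b' <;> simp [num, numI, vLit, vP'] at h <;> omega
      | _ => have := j.2; simp [num, numI, vP, vP', vQ, vQ'] at h <;> omega
    | q i => cases w' with
      | q i' => simp only [num, numI, vQ] at h; congr 1; exact Fin.ext (by omega)
      | lit i' b' => have := i'.2; cases b' <;> simp [num, numI, vLit, vQ] at h <;> omega
      | p j' => have := j'.2; simp [num, numI, vP, vP', vQ, vQ'] at h <;> omega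
      | p' j' => have := j'.2; simp [num, numI, vP, vP', vQ, vQ'] at h <;> omega
      | _ => simp [num, numI, vP, vP', vQ, vQ'] at h <;> omega
    | q' i => cases w' with
      | q' i' => simp only [num, numI, vQ'] at h; congr 1; exact Fin.ext (by omega)
      | lit i' b' => have := i'.2; cases b' <;> simp [num, numI, vLit, vQ'] at h <;> omega
      | p j' => have := j'.2; simp [num, numI, vP, vP', vQ, vQ'] at h <;> omega
      | p' j' => have := j'.2; simp [num, numI, vP, vP', vQ, vQ'] at h <;> omega
      | _ => simp [num, numI, vP, vP', vQ, vQ'] at h <;> omega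

instance finiteVtx (n m : ℕ) : Finite (Vtx n m) :=
  Nat.finite_of_card_ne_zero (by rw [card_vtx]; omega)

/-- The numbering of the vertices. -/
noncomputable def eV (n m : ℕ) : Vtx n m ≃ Fin (4 * n + 2 * m + 3) :=
  Equiv.ofBijective (fun v => ⟨num v, num_lt v⟩) (by
    rw [Nat.bijective_iff_injective_and_card]
    refine ⟨fun v v' h => num_injective (Fin.mk.inj h), ?_⟩
    rw [card_vtx, Nat.card_eq_fintype_card, Fintype.card_fin])

theorem eV_val {n m : ℕ} (v : Vtx n m) : (eV n m v : ℕ) = num v := rfl

end Pool.Agent.Lib.MP_5d404d_lc
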