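import Pool.Agent.Lib.MP_5d404d_lc.Raw

set_option autoImplicit false

/-!
# ACYC-ST is NP-hard for every fixed `k ≥ 2`

For every `k ≥ 2` there is a polynomial-time many-one reduction, computed by a Turing machine in
the sense of Mathlib, from the satisfiability problem for CNF formulas to ACYC-ST restricted to the
instances with parameter `k`.

`Pool/Agent/Lib/MP_5d404d_lc/Reduction.lean` contains the combinatorial part (the graph of the
reduction and the proof of the equivalence), `Instance.lean`, `Lists.lean`, `EdgeList.lean` turn it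
into a map between lists, and `Raw.lean` shows that this map is computable in polynomial time, with
the help of the library `Pool.Agent.Lib.PolyTime`.
-/

namespace Pool.Agent.Results.MP_5d404d_lc.PolyTimeHardness

open Pool.Agent.Lib.MP_5d404d_lc Pool.Agent.Lib.PolyTime

theorem no_loop {n m : ℕ} (φ : CNF n m) (k : ℕ) (e : Edge φ k) :
    (graph φ k).fst e ≠ (graph φ k).snd e := by
  rcases e with ⟨w, c⟩ | ⟨w, c⟩ | f
  · simp [graph]
  · simp [graph]
  · cases f <;> simp [graph, innerFst, innerSnd]

theorem result (k : ℕ) (hk : 2 ≤ k) :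
    ∃ f : Formula → Inst,
      Nonempty (Turing.TM2ComputableInPolyTime (code : Formula → List Bool)
        (code : Inst → List Bool) f) ∧
      ∀ φ : Formula, (f φ).k = k ∧ (f φ).s ≠ (f φ).t ∧ (∀ e ∈ (f φ).edges, e.1 ≠ e.2) ∧
        (φ.Sat ↔ (f φ).Yes) := by
  refine ⟨red k, (pt_red k).computable, fun φ => ⟨rfl, ?_, ?_, red_yes hk φ⟩⟩
  · intro h
    exact absurd ((eV (nv φ) φ.length).injective h) (by simp)
  · intro e he
    obtain ⟨e', -, rfl⟩ := List.mem_map.mp he
    intro h
    exact no_loop _ _ e' ((eV (nv φ) φ.length).injective h)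

end Pool.Agent.Results.MP_5d404d_lc.PolyTimeHardness
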