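import Mathlib

set_option autoImplicit false

/-!
# ACYC-ST is NP-hard for every fixed `k ≥ 2`

Graphs are finite undirected graphs in which parallel edges are allowed.
-/

namespace Pool.Agent.Lib.MP_5d404d_lc

/-! ### Orientations and edge-disjoint paths -/

section Basic

variable {V E : Type}

/-- `IsWalk T H u l v`: the list of edges `l` is a directed walk from `u` to `v`, where `T e` and
`H e` are the tail and the head of the directed edge `e`. -/
def IsWalk (T H : E → V) : V → List E → V → Prop
  | u, [], v => u = v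
  | u, e :: l, v => T e = u ∧ IsWalk T H (H e) l v

/-- A directed path: a directed walk whose vertices are pairwise distinct. -/
def IsPath (T H : E → V) (u : V) (l : List E) (v : V) : Prop :=
  IsWalk T H u l v ∧ (u :: l.map H).Nodup

/-- There are `k` pairwise edge-disjoint directed paths from `u` to `v`. -/
def EdgeDisjointPaths (T H : E → V) (k : ℕ) (u v : V) : Prop :=
  ∃ P : Fin k → List E, (∀ i, IsPath T H u (P i) v) ∧
    ∀ i j, i ≠ j → (P i).Disjoint (P j)

/-- There is a directed edge from `u` to `v`. -/
def Arc (T H : E → V) (u v : V) : Prop := ∃ e, T e = u ∧ H e = v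

/-- There is no directed cycle. -/
def Acyclic (T H : E → V) : Prop := ∀ v, ¬ Relation.TransGen (Arc T H) v v

end Basic

/-- An undirected graph with vertex set `V` and edge set `E`, parallel edges allowed: the edge `e`
joins `fst e` and `snd e`. -/
structure MGraph (V E : Type) where
  /-- one end of an edge -/
  fst : E → V
  /-- the other end of an edge -/
  snd : E → V

namespace MGraph

variable {V E : Type}

/-- The tail of the edge `e` in the orientation `o`. -/
def tail (G : MGraph V E) (o : E → Bool) (e : E) : V := if o e then G.fst e else G.snd e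

/-- The head of the edge `e` in the orientation `o`. -/
def head (G : MGraph V E) (o : E → Bool) (e : E) : V := if o e then G.snd e else G.fst e

end MGraph

/-- The orientation `o` of `G` is `(s, t, k)`-good. -/
def IsGood {V E : Type} (G : MGraph V E) (s t : V) (k : ℕ) (o : E → Bool) : Prop :=
  Acyclic (G.tail o) (G.head o) ∧
    ∀ v, v ≠ s → v ≠ t → EdgeDisjointPaths (G.tail o) (G.head o) k s v ∧
      EdgeDisjointPaths (G.tail o) (G.head o) k v t

/-- `(G, s, t, k)` is a yes-instance of ACYC-ST. -/
def AcycST {V E : Type} (G : MGraph V E) (s t : V) (k : ℕ) : Prop :=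
  ∃ o : E → Bool, IsGood G s t k o

/-! ### The reduction -/

/-- A CNF formula with variables `x_0, ..., x_{n-1}` and clauses `C_0, ..., C_{m-1}`: `φ j` is the
set of literals of the clause `C_j`, where `(i, true)` stands for `x_i` and `(i, false)` for its
negation. -/
abbrev CNF (n m : ℕ) : Type := Fin m → Finset (Fin n × Bool)

/-- The CNF formula `φ` is satisfiable. -/
def Satisfiable {n m : ℕ} (φ : CNF n m) : Prop :=
  ∃ τ : Fin n → Bool, ∀ j, ∃ l ∈ φ j, τ l.1 = l.2

/-- The inner vertices of the graph of the reduction. -/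
inductive Inner (n m : ℕ) : Type
  /-- the vertex separating true and false literals -/
  | z
  /-- the vertex of the literal `(i, b)` -/
  | lit (i : Fin n) (b : Bool)
  /-- the first vertex of the clause `C_j` -/
  | p (j : Fin m)
  /-- the second vertex of the clause `C_j` -/
  | p' (j : Fin m)
  /-- the first vertex of the variable `x_i` -/
  | q (i : Fin n)
  /-- the second vertex of the variable `x_i` -/
  | q' (i : Fin n)

/-- The vertices of the graph of the reduction. -/
inductive Vtx (n m : ℕ) : Type
  | s
  | t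
  | inner (w : Inner n m)

/-- Number of parallel edges between `s` and an inner vertex. -/
def multS {n m : ℕ} (k : ℕ) : Inner n m → ℕ
  | .z => k
  | .lit _ _ => k
  | .p _ => k - 1
  | .p' _ => k - 1
  | .q _ => k
  | .q' _ => k - 2

/-- Number of parallel edges between an inner vertex and `t`. -/
def multT {n m : ℕ} (k : ℕ) : Inner n m → ℕ
  | .z => k
  | .lit _ _ => k
  | .p _ => k
  | .p' _ => k - 2
  | .q _ => k - 1
  | .q' _ => k - 1

/-- The edges between inner vertices. -/
inductive InnerEdge {n m : ℕ} (φ : CNF n m) : Type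
  /-- an edge between `p j` and each literal of the clause `C_j` -/
  | litP (j : Fin m) (l : {l // l ∈ φ j})
  /-- an edge between `p j` and `p' j` -/
  | pp (j : Fin m)
  /-- two edges between `p' j` and `z` -/
  | pz (j : Fin m) (c : Fin 2)
  /-- an edge between `q i` and each of the two literals of the variable `x_i` -/
  | litQ (i : Fin n) (b : Bool)
  /-- an edge between `q i` and `q' i` -/
  | qq (i : Fin n)
  /-- two edges between `q' i` and `z` -/
  | qz (i : Fin n) (c : Fin 2)

/-- The edges of the graph of the reduction: `multS k w` edges between `s` and `w`,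
`multT k w` edges between `w` and `t`, and the inner edges. -/
inductive Edge {n m : ℕ} (φ : CNF n m) (k : ℕ) : Type
  | toS (w : Inner n m) (c : Fin (multS k w))
  | toT (w : Inner n m) (c : Fin (multT k w))
  | inner (f : InnerEdge φ)

/-- One end of an inner edge. -/
def innerFst {n m : ℕ} {φ : CNF n m} : InnerEdge φ → Inner n m
  | .litP j _ => .p j
  | .pp j => .p j
  | .pz j _ => .p' j
  | .litQ i _ => .q i
  | .qq i => .q i
  | .qz i _ => .q' i

/-- The other end of an inner edge. -/
def innerSnd {n m : ℕ} {φ : CNF n m} : InnerEdge φ → Inner n m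
  | .litP _ l => .lit l.1.1 l.1.2
  | .pp j => .p' j
  | .pz _ _ => .z
  | .litQ i b => .lit i b
  | .qq i => .q' i
  | .qz _ _ => .z

/-- The graph of the reduction. -/
def graph {n m : ℕ} (φ : CNF n m) (k : ℕ) : MGraph (Vtx n m) (Edge φ k) where
  fst
    | .toS w _ => .inner w
    | .toT w _ => .inner w
    | .inner f => .inner (innerFst f)
  snd
    | .toS _ _ => .s
    | .toT _ _ => .t
    | .inner f => .inner (innerSnd f)

/-! ### General facts on walks -/

section Walks

variable {V E : Type}

theorem isWalk_append {T H : E → V} : ∀ {u : V} {l l' : List E} {v w : V},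
    IsWalk T H u l v → IsWalk T H v l' w → IsWalk T H u (l ++ l') w
  | u, [], l', v, w, h, h' => by
    have : u = v := h
    subst this; exact h'
  | u, e :: l, l', v, w, h, h' => ⟨h.1, isWalk_append h.2 h'⟩

theorem isWalk_reverse {T H : E → V} : ∀ {u : V} {l : List E} {v : V},
    IsWalk T H u l v → IsWalk H T v l.reverse u
  | u, [], v, h => by
    have : u = v := h
    subst this; exact rfl
  | u, e :: l, v, h => by
    rw [List.reverse_cons]
    refine isWalk_append (isWalk_reverse h.2) ⟨rfl, ?_⟩
    exact h.1

theorem rank_of_mem_walk {T H : E → V} {f : V → ℕ} (hf : ∀ e, f (T e) < f (H e)) :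
    ∀ {u : V} {l : List E} {v : V}, IsWalk T H u l v →
      f u ≤ f v ∧ ∀ e ∈ l, f u < f (H e) ∧ (H e = v ∨ f (H e) < f v)
  | u, [], v, h => by
    have : u = v := h
    subst this
    exact ⟨le_refl _, by simp⟩
  | u, e :: l, v, h => by
    obtain ⟨h1, h2⟩ := h
    obtain ⟨h3, h4⟩ := rank_of_mem_walk hf h2
    have h5 := hf e
    rw [h1] at h5
    refine ⟨by omega, ?_⟩
    intro e' he'
    rcases List.mem_cons.mp he' with rfl | he'
    · refine ⟨h5, ?_⟩
      cases l with
      | nil => left; exact h2
      | cons e'' l =>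
        right
        have h6 := (h4 e'' (by simp)).1
        have h7 := (rank_of_mem_walk hf h2.2).1
        omega
    · have := h4 e' he'
      exact ⟨by omega, this.2⟩

theorem nodup_of_walk {T H : E → V} {f : V → ℕ} (hf : ∀ e, f (T e) < f (H e)) :
    ∀ {u : V} {l : List E} {v : V}, IsWalk T H u l v → (u :: l.map H).Nodup
  | u, [], v, _ => by simp
  | u, e :: l, v, h => by
    have h1 := nodup_of_walk hf h.2
    rw [List.map_cons, List.nodup_cons]
    refine ⟨?_, h1⟩
    intro hmem
    have h2 := (rank_of_mem_walk hf h).2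
    rw [← List.map_cons, List.mem_map] at hmem
    obtain ⟨e', he', h3⟩ := hmem
    have := (h2 e' he').1
    rw [h3] at this
    exact lt_irrefl _ this

theorem exists_head_of_walk {T H : E → V} : ∀ {u : V} {l : List E} {v : V},
    IsWalk T H u l v → u ≠ v → ∃ e ∈ l, H e = v
  | u, [], v, h, hne => absurd h hne
  | u, e :: l, v, h, _ => by
    by_cases hev : H e = v
    · exact ⟨e, by simp, hev⟩
    · obtain ⟨e', he', h1⟩ := exists_head_of_walk h.2 hev
      exact ⟨e', by simp [he'], h1⟩

theorem exists_tail_of_walk {T H : E → V} : ∀ {u : V} {l : List E} {v : V},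
    IsWalk T H u l v → u ≠ v → ∃ e ∈ l, T e = u
  | u, [], v, h, hne => absurd h hne
  | u, e :: l, v, h, _ => ⟨e, by simp, h.1⟩

theorem reflTransGen_of_walk {T H : E → V} : ∀ {u : V} {l : List E} {v : V},
    IsWalk T H u l v → Relation.ReflTransGen (Arc T H) u v
  | u, [], v, h => by
    have : u = v := h
    subst this; exact .refl
  | u, e :: l, v, h => .head ⟨e, h.1, rfl⟩ (reflTransGen_of_walk h.2)

theorem transGen_of_walk {T H : E → V} {u : V} {l : List E} {v : V}
    (h : IsWalk T H u l v) (hne : u ≠ v) : Relation.TransGen (Arc T H) u v := by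
  rcases Relation.reflTransGen_iff_eq_or_transGen.mp (reflTransGen_of_walk h) with h1 | h1
  · exact absurd h1.symm hne
  · exact h1

theorem acyclic_of_rank {T H : E → V} {f : V → ℕ} (hf : ∀ e, f (T e) < f (H e)) :
    Acyclic T H := by
  have h1 : ∀ u v, Relation.TransGen (Arc T H) u v → f u < f v := by
    intro u v h
    induction h with
    | single h =>
      obtain ⟨e, rfl, rfl⟩ := h
      exact hf e
    | tail _ h ih =>
      obtain ⟨e, rfl, rfl⟩ := h
      exact lt_trans ih (hf e)
  intro v h
  exact lt_irrefl _ (h1 v v h)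

/-- The greedy construction of edge-disjoint walks ending in prescribed vertices. -/
theorem exists_disjoint_walks [Finite E] (T H : E → V) (f : V → ℕ)
    (hf : ∀ e, f (T e) < f (H e)) (s : V) (Q : V → Prop) (k : ℕ)
    (hdeg : ∀ u, Q u → k ≤ {e | H e = u}.ncard) (hQ : ∀ e, Q (H e) → T e = s ∨ Q (T e)) :
    ∀ (N : ℕ) (v : Fin k → V), ∑ i, f (v i) ≤ N → (∀ i, v i = s ∨ Q (v i)) →
      ∃ P : Fin k → List E, (∀ i, IsWalk T H s (P i) (v i)) ∧
        ∀ i j, i ≠ j → (P i).Disjoint (P j) := by
  classical
  intro N
  induction N with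
  | zero =>
    intro v hN hv
    have h0 : ∀ i, v i = s := by
      intro i
      rcases hv i with h | h
      · exact h
      · -- `v i` has an incoming edge, so positive rank
        exfalso
        have h1 := hdeg _ h
        have hk : 0 < k := i.pos
        have h2 : {e | H e = v i}.Nonempty := by
          rw [← Set.ncard_pos (Set.toFinite _)]; omega
        obtain ⟨e, he⟩ := h2
        have h3 := hf e
        have h4 : H e = v i := he
        rw [h4] at h3
        have h5 : f (v i) ≤ ∑ i, f (v i) :=
          Finset.single_le_sum (f := fun i => f (v i)) (fun _ _ => Nat.zero_le _)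
            (Finset.mem_univ i)
        omega
    exact ⟨fun _ => [], fun i => (h0 i).symm, fun _ _ _ => by simp⟩
  | succ N ih =>
    intro v hN hv
    by_cases hall : ∀ i, v i = s
    · exact ⟨fun _ => [], fun i => (hall i).symm, fun _ _ _ => by simp⟩
    · push Not at hall
      obtain ⟨i₁, hi₁⟩ := hall
      -- choose `i₀` with maximal rank among those with `v i ≠ s`
      obtain ⟨i₀, hi₀, hmax⟩ := Finset.exists_max_image (Finset.univ.filter fun i => v i ≠ s)
        (fun i => f (v i)) ⟨i₁, by simp [hi₁]⟩
      rw [Finset.mem_filter] at hi₀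
      have hs : v i₀ ≠ s := hi₀.2
      set u := v i₀ with hu
      have hQu : Q u := (hv i₀).resolve_left hs
      -- `k` different edges with head `u`
      obtain ⟨g, hg1, hg2⟩ : ∃ g : Fin k → E, Function.Injective g ∧ ∀ i, H (g i) = u := by
        have h1 := hdeg u hQu
        have h2 : k ≤ Nat.card {e | H e = u} := h1
        have : Fintype {e | H e = u} := Fintype.ofFinite _
        rw [Nat.card_eq_fintype_card] at h2
        have h3 : Fintype.card (Fin k) ≤ Fintype.card {e | H e = u} := by simpa using h2
        obtain ⟨g⟩ := Function.Embedding.nonempty_of_card_le h3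
        exact ⟨fun i => (g i : E), fun i j h => g.injective (Subtype.ext h), fun i => (g i).2⟩
      let v' : Fin k → V := fun i => if v i = u then T (g i) else v i
      have hv'1 : ∀ i, v i = u → v' i = T (g i) := fun i h => by simp only [v', if_pos h]
      have hv'2 : ∀ i, v i ≠ u → v' i = v i := fun i h => by simp only [v', if_neg h]
      have hlt : ∀ i, v i = u → f (v' i) < f u := by
        intro i h
        rw [hv'1 i h]
        have := hf (g i)
        rwa [hg2 i] at this
      have hsum : ∑ i, f (v' i) < ∑ i, f (v i) := by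
        apply Finset.sum_lt_sum
        · intro i _
          by_cases h : v i = u
          · rw [h]; exact (hlt i h).le
          · rw [hv'2 i h]
        · exact ⟨i₀, Finset.mem_univ _, by rw [← hu]; exact hlt i₀ hu.symm⟩
      have hv' : ∀ i, v' i = s ∨ Q (v' i) := by
        intro i
        by_cases h : v i = u
        · rw [hv'1 i h]
          exact hQ (g i) (by rw [hg2 i]; exact hQu)
        · rw [hv'2 i h]; exact hv i
      obtain ⟨P', hP'1, hP'2⟩ := ih v' (by omega) hv'
      -- no walk `P' i` uses an edge with head `u`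
      have hno : ∀ i, ∀ e ∈ P' i, H e ≠ u := by
        intro i e he heu
        obtain ⟨h1, h2⟩ := rank_of_mem_walk hf (hP'1 i)
        obtain ⟨h3, h4⟩ := h2 e he
        rw [heu] at h3 h4
        by_cases h : v i = u
        · have h5 := hlt i h
          rcases h4 with h4 | h4
          · rw [← h4] at h5; omega
          · omega
        · rw [hv'2 i h] at h4
          rcases h4 with h4 | h4
          · exact h h4.symm
          · by_cases hvs : v i = s
            · rw [hvs] at h4; omega
            · have h6 := hmax i (by simp [hvs])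
              change f (v i) ≤ f u at h6
              omega
      refine ⟨fun i => if v i = u then P' i ++ [g i] else P' i, ?_, ?_⟩
      · intro i
        by_cases h : v i = u
        · simp only [if_pos h]
          have h1 := hP'1 i
          rw [hv'1 i h] at h1
          refine isWalk_append h1 ⟨rfl, ?_⟩
          rw [h, hg2 i]; exact rfl
        · simp only [if_neg h]
          have h1 := hP'1 i
          rwa [hv'2 i h] at h1
      · intro i j hij
        have h1 := hP'2 i j hij
        have h2 : ∀ i j, g i ∉ P' j := fun i j hmem => hno j _ hmem (hg2 i)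
        have h3 : g i ≠ g j := fun h => hij (hg1 h)
        intro e hei hej
        have hei' : e ∈ P' i ∨ (v i = u ∧ e = g i) := by
          by_cases h : v i = u
          · simp only [if_pos h, List.mem_append, List.mem_singleton] at hei
            rcases hei with hei | hei
            · exact Or.inl hei
            · exact Or.inr ⟨h, hei⟩
          · simp only [if_neg h] at hei
            exact Or.inl hei
        have hej' : e ∈ P' j ∨ (v j = u ∧ e = g j) := by
          by_cases h : v j = u
          · simp only [if_pos h, List.mem_append, List.mem_singleton] at hej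
            rcases hej with hej | hej
            · exact Or.inl hej
            · exact Or.inr ⟨h, hej⟩
          · simp only [if_neg h] at hej
            exact Or.inl hej
        rcases hei' with hi | ⟨_, rfl⟩ <;> rcases hej' with hj | ⟨_, hj⟩
        · exact h1 hi hj
        · rw [hj] at hi; exact h2 j i hi
        · exact h2 i j hj
        · exact h3 hj

/-- Degree conditions imply edge-disjoint paths from `s`. -/
theorem edgeDisjointPaths_of_degree [Finite E] (T H : E → V) (f : V → ℕ)
    (hf : ∀ e, f (T e) < f (H e)) (s : V) (Q : V → Prop) (k : ℕ)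
    (hdeg : ∀ u, Q u → k ≤ {e | H e = u}.ncard) (hQ : ∀ e, Q (H e) → T e = s ∨ Q (T e))
    (v : V) (hv : Q v) : EdgeDisjointPaths T H k s v := by
  obtain ⟨P, hP1, hP2⟩ := exists_disjoint_walks T H f hf s Q k hdeg hQ _ (fun _ => v) le_rfl
    (fun _ => Or.inr hv)
  exact ⟨P, fun i => ⟨hP1 i, nodup_of_walk hf (hP1 i)⟩, hP2⟩

/-- Degree conditions imply edge-disjoint paths to `t`. -/
theorem edgeDisjointPaths_of_degree' [Finite E] (T H : E → V) (f : V → ℕ)
    (hf : ∀ e, f (T e) < f (H e)) (M : ℕ) (hM : ∀ v, f v ≤ M) (t : V) (Q : V → Prop) (k : ℕ)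
    (hdeg : ∀ u, Q u → k ≤ {e | T e = u}.ncard) (hQ : ∀ e, Q (T e) → H e = t ∨ Q (H e))
    (v : V) (hv : Q v) : EdgeDisjointPaths T H k v t := by
  obtain ⟨P, hP1, hP2⟩ := exists_disjoint_walks H T (fun v => M - f v)
    (fun e => by have := hf e; have := hM (H e); have := hM (T e); omega) t Q k hdeg hQ _
    (fun _ => v) le_rfl (fun _ => Or.inr hv)
  refine ⟨fun i => (P i).reverse, fun i => ?_, fun i j hij => ?_⟩
  · have h1 := isWalk_reverse (hP1 i)
    exact ⟨h1, nodup_of_walk hf h1⟩
  · intro e hi hj
    rw [List.mem_reverse] at hi hj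
    exact hP2 i j hij hi hj

/-- Edge-disjoint paths from `s` to `v ≠ s` give a lower bound on the in-degree of `v`. -/
theorem le_indegree [Finite E] {T H : E → V} {k : ℕ} {s v : V} (hsv : s ≠ v)
    (h : EdgeDisjointPaths T H k s v) : k ≤ {e | H e = v}.ncard := by
  classical
  obtain ⟨P, hP1, hP2⟩ := h
  choose g hg1 hg2 using fun i => exists_head_of_walk (hP1 i).1 hsv
  have hinj : Function.Injective g := by
    intro i j hij
    by_contra hne
    exact hP2 i j hne (hg1 i) (hij ▸ hg1 j)
  have h1 : (Set.range g).ncard = k := by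
    rw [← Set.image_univ, Set.ncard_image_of_injective _ hinj, Set.ncard_univ, Nat.card_fin]
  rw [← h1]
  apply Set.ncard_le_ncard _ (Set.toFinite _)
  rintro _ ⟨i, rfl⟩
  exact hg2 i

theorem le_outdegree [Finite E] {T H : E → V} {k : ℕ} {v t : V} (hvt : v ≠ t)
    (h : EdgeDisjointPaths T H k v t) : k ≤ {e | T e = v}.ncard := by
  classical
  obtain ⟨P, hP1, hP2⟩ := h
  choose g hg1 hg2 using fun i => exists_tail_of_walk (hP1 i).1 hvt
  have hinj : Function.Injective g := by
    intro i j hij
    by_contra hne
    exact hP2 i j hne (hg1 i) (hij ▸ hg1 j)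
  have h1 : (Set.range g).ncard = k := by
    rw [← Set.image_univ, Set.ncard_image_of_injective _ hinj, Set.ncard_univ, Nat.card_fin]
  rw [← h1]
  apply Set.ncard_le_ncard _ (Set.toFinite _)
  rintro _ ⟨i, rfl⟩
  exact hg2 i

theorem transGen_of_paths {T H : E → V} {k : ℕ} (hk : 0 < k) {u v : V} (huv : u ≠ v)
    (h : EdgeDisjointPaths T H k u v) : Relation.TransGen (Arc T H) u v := by
  obtain ⟨P, hP1, _⟩ := h
  exact transGen_of_walk (hP1 ⟨0, hk⟩).1 huv

end Walks

/-! ### Finiteness of the graph of the reduction -/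

section Finiteness

variable {n m : ℕ}

instance : Finite (Inner n m) := by
  let F : Inner n m → Unit ⊕ (Fin n × Bool) ⊕ Fin m ⊕ Fin m ⊕ Fin n ⊕ Fin n := fun w =>
    match w with
    | .z => .inl ()
    | .lit i b => .inr (.inl (i, b))
    | .p j => .inr (.inr (.inl j))
    | .p' j => .inr (.inr (.inr (.inl j)))
    | .q i => .inr (.inr (.inr (.inr (.inl i))))
    | .q' i => .inr (.inr (.inr (.inr (.inr i))))
  apply Finite.of_injective F
  intro a b h
  cases a <;> cases b <;> simp_all [F]

instance {φ : CNF n m} : Finite (InnerEdge φ) := by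
  let F : InnerEdge φ → (Σ j : Fin m, {l // l ∈ φ j}) ⊕ Fin m ⊕ (Fin m × Fin 2) ⊕
      (Fin n × Bool) ⊕ Fin n ⊕ (Fin n × Fin 2) := fun w =>
    match w with
    | .litP j l => .inl ⟨j, l⟩
    | .pp j => .inr (.inl j)
    | .pz j c => .inr (.inr (.inl (j, c)))
    | .litQ i b => .inr (.inr (.inr (.inl (i, b))))
    | .qq i => .inr (.inr (.inr (.inr (.inl i))))
    | .qz i c => .inr (.inr (.inr (.inr (.inr (i, c)))))
  apply Finite.of_injective F
  intro a b h
  cases a <;> cases b <;> simp_all [F]

instance {φ : CNF n m} {k : ℕ} : Finite (Edge φ k) := by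
  let F : Edge φ k → (Σ w : Inner n m, Fin (multS k w)) ⊕ (Σ w : Inner n m, Fin (multT k w)) ⊕
      InnerEdge φ := fun w =>
    match w with
    | .toS w c => .inl ⟨w, c⟩
    | .toT w c => .inr (.inl ⟨w, c⟩)
    | .inner f => .inr (.inr f)
  apply Finite.of_injective F
  intro a b h
  cases a <;> cases b <;> simp_all [F]

end Finiteness

/-! ### From a good orientation to a satisfying assignment -/

section Forward

variable {n m : ℕ} {φ : CNF n m} {k : ℕ} {o : Edge φ k → Bool}

theorem head_or (o : Edge φ k → Bool) (e : Edge φ k) :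
    ((graph φ k).tail o e = (graph φ k).fst e ∧ (graph φ k).head o e = (graph φ k).snd e) ∨
    ((graph φ k).tail o e = (graph φ k).snd e ∧ (graph φ k).head o e = (graph φ k).fst e) := by
  unfold MGraph.tail MGraph.head
  cases o e <;> simp

theorem good_toS (hk : 0 < k) (ho : IsGood (graph φ k) .s .t k o) (w : Inner n m)
    (c : Fin (multS k w)) :
    (graph φ k).tail o (.toS w c) = .s ∧ (graph φ k).head o (.toS w c) = .inner w := by
  rcases head_or o (.toS w c) with h | h
  · exfalso
    have h1 := transGen_of_paths hk (u := Vtx.s) (v := Vtx.inner w) (by simp)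
      (ho.2 (.inner w) (by simp) (by simp)).1
    exact ho.1 .s (h1.tail ⟨_, h.1, h.2⟩)
  · exact h

theorem good_toT (hk : 0 < k) (ho : IsGood (graph φ k) .s .t k o) (w : Inner n m)
    (c : Fin (multT k w)) :
    (graph φ k).tail o (.toT w c) = .inner w ∧ (graph φ k).head o (.toT w c) = .t := by
  rcases head_or o (.toT w c) with h | h
  · exact h
  · exfalso
    have h1 := transGen_of_paths hk (u := Vtx.inner w) (v := Vtx.t) (by simp)
      (ho.2 (.inner w) (by simp) (by simp)).2
    exact ho.1 .t (.head ⟨_, h.1, h.2⟩ h1)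

/-- The inner edges entering an inner vertex. -/
def IN (o : Edge φ k → Bool) (w : Inner n m) : Set (InnerEdge φ) :=
  {f | (graph φ k).head o (.inner f) = .inner w}

/-- The inner edges leaving an inner vertex. -/
def OUT (o : Edge φ k → Bool) (w : Inner n m) : Set (InnerEdge φ) :=
  {f | (graph φ k).tail o (.inner f) = .inner w}

theorem in_bound (hk : 0 < k) (ho : IsGood (graph φ k) .s .t k o) (w : Inner n m) :
    k ≤ multS k w + (IN o w).ncard := by
  have h1 := le_indegree (s := Vtx.s) (v := Vtx.inner w) (by simp)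
    (ho.2 (.inner w) (by simp) (by simp)).1
  have h2 : {e | (graph φ k).head o e = .inner w} ⊆
      Set.range (fun c : Fin (multS k w) => Edge.toS (φ := φ) w c) ∪ Edge.inner '' (IN o w) := by
    intro e he
    have he' : (graph φ k).head o e = .inner w := he
    cases e with
    | toS w' c =>
      left
      rw [(good_toS hk ho w' c).2] at he'
      simp only [Vtx.inner.injEq] at he'
      subst he'
      exact ⟨c, rfl⟩
    | toT w' c =>
      rw [(good_toT hk ho w' c).2] at he'
      exact absurd he' (by simp)
    | inner f => right; exact ⟨f, he', rfl⟩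
  have h3 := Set.ncard_le_ncard h2 (Set.toFinite _)
  have h4 := Set.ncard_union_le
    (Set.range (fun c : Fin (multS k w) => Edge.toS (φ := φ) w c)) (Edge.inner '' (IN o w))
  have h5 : (Set.range (fun c : Fin (multS k w) => Edge.toS (φ := φ) w c)).ncard ≤
      multS k w := by
    rw [← Set.image_univ]
    refine (Set.ncard_image_le (Set.toFinite _)).trans ?_
    rw [Set.ncard_univ, Nat.card_fin]
  have h6 := Set.ncard_image_le (f := (Edge.inner : InnerEdge φ → Edge φ k))
    (Set.toFinite (IN o w))
  omega

theorem out_bound (hk : 0 < k) (ho : IsGood (graph φ k) .s .t k o) (w : Inner n m) :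
    k ≤ multT k w + (OUT o w).ncard := by
  have h1 := le_outdegree (t := Vtx.t) (v := Vtx.inner w) (by simp)
    (ho.2 (.inner w) (by simp) (by simp)).2
  have h2 : {e | (graph φ k).tail o e = .inner w} ⊆
      Set.range (fun c : Fin (multT k w) => Edge.toT (φ := φ) w c) ∪ Edge.inner '' (OUT o w) := by
    intro e he
    have he' : (graph φ k).tail o e = .inner w := he
    cases e with
    | toS w' c =>
      rw [(good_toS hk ho w' c).1] at he'
      exact absurd he' (by simp)
    | toT w' c =>
      left
      rw [(good_toT hk ho w' c).1] at he'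
      simp only [Vtx.inner.injEq] at he'
      subst he'
      exact ⟨c, rfl⟩
    | inner f => right; exact ⟨f, he', rfl⟩
  have h3 := Set.ncard_le_ncard h2 (Set.toFinite _)
  have h4 := Set.ncard_union_le
    (Set.range (fun c : Fin (multT k w) => Edge.toT (φ := φ) w c)) (Edge.inner '' (OUT o w))
  have h5 : (Set.range (fun c : Fin (multT k w) => Edge.toT (φ := φ) w c)).ncard ≤
      multT k w := by
    rw [← Set.image_univ]
    refine (Set.ncard_image_le (Set.toFinite _)).trans ?_
    rw [Set.ncard_univ, Nat.card_fin]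
  have h6 := Set.ncard_image_le (f := (Edge.inner : InnerEdge φ → Edge φ k))
    (Set.toFinite (OUT o w))
  omega

/-- Abbreviation for the reachability relation. -/
abbrev Lt (o : Edge φ k → Bool) (v w : Inner n m) : Prop :=
  Relation.TransGen (Arc ((graph φ k).tail o) ((graph φ k).head o)) (.inner v) (.inner w)

theorem lt_irrefl' (ho : IsGood (graph φ k) .s .t k o) (v : Inner n m) : ¬ Lt o v v := ho.1 _

/-- Each inner edge gives an inequality in one of the two directions, which is determined by
membership in `IN` and `OUT`. -/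
theorem inner_cases (o : Edge φ k → Bool) (f : InnerEdge φ) :
    ((graph φ k).tail o (.inner f) = .inner (innerFst f) ∧
      (graph φ k).head o (.inner f) = .inner (innerSnd f)) ∨
    ((graph φ k).tail o (.inner f) = .inner (innerSnd f) ∧
      (graph φ k).head o (.inner f) = .inner (innerFst f)) := head_or o (.inner f)

theorem exists_of_pos {α : Type} [Finite α] {S : Set α} (h : 1 ≤ S.ncard) : ∃ x, x ∈ S := by
  have : S.Nonempty := by
    rw [← Set.ncard_pos (Set.toFinite _)]; omega
  exact this

theorem exists_two {α : Type} [Finite α] {S : Set α} (h : 2 ≤ S.ncard) :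
    ∃ x ∈ S, ∃ y ∈ S, x ≠ y := by
  have h1 : 1 < S.ncard := by omega
  rw [Set.one_lt_ncard (Set.toFinite _)] at h1
  obtain ⟨x, hx, y, hy, hxy⟩ := h1
  exact ⟨x, hx, y, hy, hxy⟩

theorem mem_IN {w : Inner n m} {f : InnerEdge φ} (h : f ∈ IN o w) :
    (innerSnd f = w ∧ Lt o (innerFst f) w) ∨ (innerFst f = w ∧ Lt o (innerSnd f) w) := by
  have h' : (graph φ k).head o (.inner f) = .inner w := h
  rcases inner_cases o f with ⟨h1, h2⟩ | ⟨h1, h2⟩
  · left
    rw [h2] at h'
    simp only [Vtx.inner.injEq] at h'
    exact ⟨h', .single ⟨_, h1, by rw [h2, h']⟩⟩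
  · right
    rw [h2] at h'
    simp only [Vtx.inner.injEq] at h'
    exact ⟨h', .single ⟨_, h1, by rw [h2, h']⟩⟩

theorem mem_OUT {w : Inner n m} {f : InnerEdge φ} (h : f ∈ OUT o w) :
    (innerFst f = w ∧ Lt o w (innerSnd f)) ∨ (innerSnd f = w ∧ Lt o w (innerFst f)) := by
  have h' : (graph φ k).tail o (.inner f) = .inner w := h
  rcases inner_cases o f with ⟨h1, h2⟩ | ⟨h1, h2⟩
  · left
    rw [h1] at h'
    simp only [Vtx.inner.injEq] at h'
    exact ⟨h', .single ⟨_, by rw [h1, h'], h2⟩⟩
  · right
    rw [h1] at h'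
    simp only [Vtx.inner.injEq] at h'
    exact ⟨h', .single ⟨_, by rw [h1, h'], h2⟩⟩

theorem p'_gadget (hk : 2 ≤ k) (ho : IsGood (graph φ k) .s .t k o) (j : Fin m) :
    Lt o (.p j) (.p' j) ∧ Lt o (.p' j) .z := by
  have hin := in_bound (by omega) ho (.p' j)
  have hout := out_bound (by omega) ho (.p' j)
  simp only [multS, multT] at hin hout
  obtain ⟨f, hf⟩ := exists_of_pos (S := IN o (.p' j)) (by omega)
  obtain ⟨g, hg, g', hg', hne⟩ := exists_two (S := OUT o (.p' j)) (by omega)
  have key : ∀ g ∈ OUT o (.p' j), g = .pp j ∨ Lt o (.p' j) .z := by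
    intro g hg
    rcases mem_OUT hg with ⟨h1, h2⟩ | ⟨h1, h2⟩
    · cases g <;> simp_all [innerFst, innerSnd]
    · cases g <;> simp_all [innerFst, innerSnd]
  have hz : Lt o (.p' j) .z := by
    rcases key g hg with h1 | h1
    · rcases key g' hg' with h2 | h2
      · exact absurd (h1.trans h2.symm) hne
      · exact h2
    · exact h1
  refine ⟨?_, hz⟩
  rcases mem_IN hf with ⟨h1, h2⟩ | ⟨h1, h2⟩
  · cases f <;> simp_all [innerFst, innerSnd]
  · exfalso
    cases f <;> simp_all [innerFst, innerSnd]
    exact lt_irrefl' ho _ (hz.trans h2)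

theorem q'_gadget (hk : 2 ≤ k) (ho : IsGood (graph φ k) .s .t k o) (i : Fin n) :
    Lt o .z (.q' i) ∧ Lt o (.q' i) (.q i) := by
  have hin := in_bound (by omega) ho (.q' i)
  have hout := out_bound (by omega) ho (.q' i)
  simp only [multS, multT] at hin hout
  obtain ⟨f, hf⟩ := exists_of_pos (S := OUT o (.q' i)) (by omega)
  obtain ⟨g, hg, g', hg', hne⟩ := exists_two (S := IN o (.q' i)) (by omega)
  have key : ∀ g ∈ IN o (.q' i), g = .qq i ∨ Lt o .z (.q' i) := by
    intro g hg
    rcases mem_IN hg with ⟨h1, h2⟩ | ⟨h1, h2⟩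
    · cases g <;> simp_all [innerFst, innerSnd]
    · cases g <;> simp_all [innerFst, innerSnd]
  have hz : Lt o .z (.q' i) := by
    rcases key g hg with h1 | h1
    · rcases key g' hg' with h2 | h2
      · exact absurd (h1.trans h2.symm) hne
      · exact h2
    · exact h1
  refine ⟨hz, ?_⟩
  rcases mem_OUT hf with ⟨h1, h2⟩ | ⟨h1, h2⟩
  · exfalso
    cases f <;> simp_all [innerFst, innerSnd]
    exact lt_irrefl' ho _ (hz.trans h2)
  · cases f <;> simp_all [innerFst, innerSnd]

theorem p_gadget (hk : 2 ≤ k) (ho : IsGood (graph φ k) .s .t k o) (j : Fin m) :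
    ∃ l ∈ φ j, Lt o (.lit l.1 l.2) .z := by
  have hin := in_bound (by omega) ho (.p j)
  simp only [multS] at hin
  obtain ⟨f, hf⟩ := exists_of_pos (S := IN o (.p j)) (by omega)
  obtain ⟨hp1, hp2⟩ := p'_gadget hk ho j
  rcases mem_IN hf with ⟨h1, h2⟩ | ⟨h1, h2⟩
  · exfalso
    cases f <;> simp_all [innerFst, innerSnd]
  · cases f with
    | litP j' l =>
      simp only [innerFst, Inner.p.injEq] at h1
      subst h1
      exact ⟨l.1, l.2, (h2.trans hp1).trans hp2⟩
    | pp j' =>
      exfalso
      simp only [innerFst, Inner.p.injEq] at h1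
      subst h1
      exact lt_irrefl' ho _ (hp1.trans h2)
    | _ => simp [innerFst] at h1

theorem q_gadget (hk : 2 ≤ k) (ho : IsGood (graph φ k) .s .t k o) (i : Fin n) :
    ∃ b, Lt o .z (.lit i b) := by
  have hout := out_bound (by omega) ho (.q i)
  simp only [multT] at hout
  obtain ⟨f, hf⟩ := exists_of_pos (S := OUT o (.q i)) (by omega)
  obtain ⟨hq1, hq2⟩ := q'_gadget hk ho i
  rcases mem_OUT hf with ⟨h1, h2⟩ | ⟨h1, h2⟩
  · cases f with
    | litQ i' b =>
      simp only [innerFst, Inner.q.injEq] at h1
      subst h1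
      exact ⟨b, (hq1.trans hq2).trans h2⟩
    | qq i' =>
      exfalso
      simp only [innerFst, Inner.q.injEq] at h1
      subst h1
      exact lt_irrefl' ho _ (hq2.trans h2)
    | _ => simp [innerFst] at h1
  · exfalso
    cases f <;> simp_all [innerFst, innerSnd]

theorem satisfiable_of_good (hk : 2 ≤ k) (h : AcycST (graph φ k) .s .t k) :
    Satisfiable φ := by
  classical
  obtain ⟨o, ho⟩ := h
  refine ⟨fun i => decide (Lt o (.lit i true) .z), fun j => ?_⟩
  obtain ⟨⟨i, b⟩, hl, hlt⟩ := p_gadget hk ho j
  refine ⟨(i, b), hl, ?_⟩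
  cases b with
  | true => simpa using hlt
  | false =>
    simp only [decide_eq_false_iff_not]
    intro h1
    obtain ⟨b, hb⟩ := q_gadget hk ho i
    cases b with
    | true => exact lt_irrefl' ho _ (h1.trans hb)
    | false => exact lt_irrefl' ho _ (hlt.trans hb)

end Forward

/-! ### From a satisfying assignment to a good orientation -/

section Backward

variable {n m : ℕ} {φ : CNF n m} {k : ℕ}

/-- The rank of an inner vertex in the topological order given by an assignment. -/
def innerRank (τ : Fin n → Bool) : Inner n m → ℕ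
  | .z => 4
  | .lit i b => if τ i = b then 1 else 7
  | .p _ => 2
  | .p' _ => 3
  | .q _ => 6
  | .q' _ => 5

/-- The rank of a vertex in the topological order given by an assignment. -/
def rk (τ : Fin n → Bool) : Vtx n m → ℕ
  | .s => 0
  | .t => 8
  | .inner w => innerRank τ w

theorem innerRank_bounds (τ : Fin n → Bool) (w : Inner n m) :
    0 < innerRank τ w ∧ innerRank τ w < 8 := by
  cases w <;> simp [innerRank]
  split_ifs <;> simp

theorem innerRank_ne (τ : Fin n → Bool) (f : InnerEdge φ) :
    innerRank τ (innerFst f) ≠ innerRank τ (innerSnd f) := by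
  cases f <;> simp only [innerFst, innerSnd, innerRank]
  case litP j l => split_ifs <;> simp
  case litQ i b => split_ifs <;> simp
  all_goals simp

/-- The orientation given by an assignment: from smaller to larger rank. -/
def orient (φ : CNF n m) (k : ℕ) (τ : Fin n → Bool) (e : Edge φ k) : Bool :=
  decide (rk τ ((graph φ k).fst e) < rk τ ((graph φ k).snd e))

theorem orient_spec (τ : Fin n → Bool) (e : Edge φ k) :
    rk τ ((graph φ k).tail (orient φ k τ) e) < rk τ ((graph φ k).head (orient φ k τ) e) := by
  have hne : rk τ ((graph φ k).fst e) ≠ rk τ ((graph φ k).snd e) := by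
    cases e with
    | toS w c =>
      have := innerRank_bounds τ w
      simp only [graph, rk]; omega
    | toT w c =>
      have := innerRank_bounds τ w
      simp only [graph, rk]; omega
    | inner f => exact innerRank_ne τ f
  unfold MGraph.tail MGraph.head orient
  by_cases h : rk τ ((graph φ k).fst e) < rk τ ((graph φ k).snd e)
  · simp [h]
  · simp only [h, decide_false, Bool.false_eq_true, if_false]
    omega

theorem orient_of_lt (τ : Fin n → Bool) (e : Edge φ k)
    (h : rk τ ((graph φ k).fst e) < rk τ ((graph φ k).snd e)) :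
    (graph φ k).tail (orient φ k τ) e = (graph φ k).fst e ∧
      (graph φ k).head (orient φ k τ) e = (graph φ k).snd e := by
  unfold MGraph.tail MGraph.head orient
  simp [h]

theorem orient_of_gt (τ : Fin n → Bool) (e : Edge φ k)
    (h : rk τ ((graph φ k).snd e) < rk τ ((graph φ k).fst e)) :
    (graph φ k).tail (orient φ k τ) e = (graph φ k).snd e ∧
      (graph φ k).head (orient φ k τ) e = (graph φ k).fst e := by
  unfold MGraph.tail MGraph.head orient
  have : ¬ rk τ ((graph φ k).fst e) < rk τ ((graph φ k).snd e) := by omega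
  simp [this]

theorem orient_toS (τ : Fin n → Bool) (w : Inner n m) (c : Fin (multS k w)) :
    (graph φ k).tail (orient φ k τ) (.toS w c) = .s ∧
      (graph φ k).head (orient φ k τ) (.toS w c) = .inner w := by
  have := innerRank_bounds τ w
  exact orient_of_gt τ (.toS w c) (by simp only [graph, rk]; omega)

theorem orient_toT (τ : Fin n → Bool) (w : Inner n m) (c : Fin (multT k w)) :
    (graph φ k).tail (orient φ k τ) (.toT w c) = .inner w ∧
      (graph φ k).head (orient φ k τ) (.toT w c) = .t := by
  have := innerRank_bounds τ w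
  exact orient_of_lt τ (.toT w c) (by simp only [graph, rk]; omega)

theorem le_ncard_head (o : Edge φ k → Bool) (w : Inner n m)
    (h : ∀ c : Fin (multS k w), (graph φ k).head o (.toS w c) = .inner w) :
    multS k w + (IN o w).ncard ≤ {e | (graph φ k).head o e = .inner w}.ncard := by
  have h1 : Set.range (fun c : Fin (multS k w) => Edge.toS (φ := φ) w c) ∪
      Edge.inner '' (IN o w) ⊆ {e | (graph φ k).head o e = .inner w} := by
    rintro e (⟨c, rfl⟩ | ⟨f, hf, rfl⟩)
    · exact h c
    · exact hf
  refine le_trans ?_ (Set.ncard_le_ncard h1 (Set.toFinite _))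
  rw [Set.ncard_union_eq _ (Set.toFinite _) (Set.toFinite _)]
  · rw [← Set.image_univ, Set.ncard_image_of_injective, Set.ncard_image_of_injective,
      Set.ncard_univ, Nat.card_fin]
    · intro a b hab; simpa using hab
    · intro a b hab; simpa using hab
  · rw [Set.disjoint_left]
    rintro _ ⟨c, rfl⟩ ⟨f, _, hf⟩
    simp at hf

theorem le_ncard_tail (o : Edge φ k → Bool) (w : Inner n m)
    (h : ∀ c : Fin (multT k w), (graph φ k).tail o (.toT w c) = .inner w) :
    multT k w + (OUT o w).ncard ≤ {e | (graph φ k).tail o e = .inner w}.ncard := by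
  have h1 : Set.range (fun c : Fin (multT k w) => Edge.toT (φ := φ) w c) ∪
      Edge.inner '' (OUT o w) ⊆ {e | (graph φ k).tail o e = .inner w} := by
    rintro e (⟨c, rfl⟩ | ⟨f, hf, rfl⟩)
    · exact h c
    · exact hf
  refine le_trans ?_ (Set.ncard_le_ncard h1 (Set.toFinite _))
  rw [Set.ncard_union_eq _ (Set.toFinite _) (Set.toFinite _)]
  · rw [← Set.image_univ, Set.ncard_image_of_injective, Set.ncard_image_of_injective,
      Set.ncard_univ, Nat.card_fin]
    · intro a b hab; simpa using hab
    · intro a b hab; simpa using hab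
  · rw [Set.disjoint_left]
    rintro _ ⟨c, rfl⟩ ⟨f, _, hf⟩
    simp at hf

theorem one_le_ncard {α : Type} [Finite α] {S : Set α} {x : α} (h : x ∈ S) : 1 ≤ S.ncard := by
  have : 0 < S.ncard := (Set.ncard_pos (Set.toFinite _)).mpr ⟨x, h⟩
  omega

theorem two_le_ncard {α : Type} [Finite α] {S : Set α} {x y : α} (hx : x ∈ S) (hy : y ∈ S)
    (hne : x ≠ y) : 2 ≤ S.ncard := by
  have : 1 < S.ncard := (Set.one_lt_ncard (Set.toFinite _)).mpr ⟨x, hx, y, hy, hne⟩
  omega

theorem in_mem_of_lt (τ : Fin n → Bool) (f : InnerEdge φ)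
    (h : innerRank τ (innerFst f) < innerRank τ (innerSnd f)) :
    f ∈ IN (orient φ k τ) (innerSnd f) ∧ f ∈ OUT (orient φ k τ) (innerFst f) := by
  have := orient_of_lt (k := k) τ (.inner f) h
  exact ⟨this.2, this.1⟩

theorem in_mem_of_gt (τ : Fin n → Bool) (f : InnerEdge φ)
    (h : innerRank τ (innerSnd f) < innerRank τ (innerFst f)) :
    f ∈ IN (orient φ k τ) (innerFst f) ∧ f ∈ OUT (orient φ k τ) (innerSnd f) := by
  have := orient_of_gt (k := k) τ (.inner f) h
  exact ⟨this.2, this.1⟩

theorem good_of_satisfiable (hk : 2 ≤ k) (h : Satisfiable φ) : AcycST (graph φ k) .s .t k := by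
  obtain ⟨τ, hτ⟩ := h
  have hrk := orient_spec (φ := φ) (k := k) τ
  have hdegin : ∀ w : Inner n m,
      k ≤ {e | (graph φ k).head (orient φ k τ) e = .inner w}.ncard := by
    intro w
    refine le_trans ?_ (le_ncard_head _ w fun c => (orient_toS τ w c).2)
    cases w with
    | z => simp [multS]
    | lit i b => simp [multS]
    | q i => simp [multS]
    | p j =>
      obtain ⟨l, hl, hτl⟩ := hτ j
      have h1 := (in_mem_of_gt (k := k) τ (.litP j ⟨l, hl⟩ : InnerEdge φ)
        (by simp [innerFst, innerSnd, innerRank, hτl])).1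
      have h2 := one_le_ncard h1
      simp only [innerFst] at h2
      simp only [multS]
      omega
    | p' j =>
      have h1 := (in_mem_of_lt (k := k) τ (.pp j : InnerEdge φ)
        (by simp [innerFst, innerSnd, innerRank])).1
      have h2 := one_le_ncard h1
      simp only [innerSnd] at h2
      simp only [multS]
      omega
    | q' i =>
      have h1 : ∀ c, (.qz i c : InnerEdge φ) ∈ IN (orient φ k τ) (.q' i) := fun c =>
        (in_mem_of_gt (k := k) τ (.qz i c : InnerEdge φ)
          (by simp [innerFst, innerSnd, innerRank])).1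
      have h2 := two_le_ncard (h1 0) (h1 1) (by simp)
      simp only [multS]
      omega
  have hdegout : ∀ w : Inner n m,
      k ≤ {e | (graph φ k).tail (orient φ k τ) e = .inner w}.ncard := by
    intro w
    refine le_trans ?_ (le_ncard_tail _ w fun c => (orient_toT τ w c).1)
    cases w with
    | z => simp [multT]
    | lit i b => simp [multT]
    | p j => simp [multT]
    | p' j =>
      have h1 : ∀ c, (.pz j c : InnerEdge φ) ∈ OUT (orient φ k τ) (.p' j) := fun c =>
        (in_mem_of_lt (k := k) τ (.pz j c : InnerEdge φ)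
          (by simp [innerFst, innerSnd, innerRank])).2
      have h2 := two_le_ncard (h1 0) (h1 1) (by simp)
      simp only [multT]
      omega
    | q i =>
      have h1 := (in_mem_of_lt (k := k) τ (.litQ i (!τ i) : InnerEdge φ)
        (by simp [innerFst, innerSnd, innerRank])).2
      have h2 := one_le_ncard h1
      simp only [innerFst] at h2
      simp only [multT]
      omega
    | q' i =>
      have h1 := (in_mem_of_gt (k := k) τ (.qq i : InnerEdge φ)
        (by simp [innerFst, innerSnd, innerRank])).2
      have h2 := one_le_ncard h1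
      simp only [innerSnd] at h2
      simp only [multT]
      omega
  refine ⟨orient φ k τ, acyclic_of_rank hrk, fun v hvs hvt => ⟨?_, ?_⟩⟩
  · refine edgeDisjointPaths_of_degree _ _ (rk τ) hrk .s (fun v => v ≠ .s ∧ v ≠ .t) k ?_ ?_ v
      ⟨hvs, hvt⟩
    · rintro (_ | _ | w) ⟨h1, h2⟩
      · exact absurd rfl h1
      · exact absurd rfl h2
      · exact hdegin w
    · intro e _
      by_cases h1 : (graph φ k).tail (orient φ k τ) e = .s
      · exact Or.inl h1
      · refine Or.inr ⟨h1, fun h2 => ?_⟩
        have h3 := hrk e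
        rw [h2] at h3
        have h4 : rk τ ((graph φ k).head (orient φ k τ) e) ≤ 8 := by
          rcases (graph φ k).head (orient φ k τ) e with _ | _ | w
          · simp [rk]
          · simp [rk]
          · exact (innerRank_bounds τ w).2.le
        have h5 : rk τ (Vtx.t : Vtx n m) = 8 := rfl
        omega
  · refine edgeDisjointPaths_of_degree' _ _ (rk τ) hrk 8 ?_ .t (fun v => v ≠ .s ∧ v ≠ .t) k ?_ ?_
      v ⟨hvs, hvt⟩
    · rintro (_ | _ | w)
      · simp [rk]
      · simp [rk]
      · exact (innerRank_bounds τ w).2.le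
    · rintro (_ | _ | w) ⟨h1, h2⟩
      · exact absurd rfl h1
      · exact absurd rfl h2
      · exact hdegout w
    · intro e _
      by_cases h1 : (graph φ k).head (orient φ k τ) e = .t
      · exact Or.inl h1
      · refine Or.inr ⟨fun h2 => ?_, h1⟩
        have h3 := hrk e
        rw [h2] at h3
        simp [rk] at h3

end Backward

/-! ### The size of the graph -/

section Size

/-- The inner vertices as a sum type. -/
def innerEquiv (n m : ℕ) :
    Inner n m ≃ Unit ⊕ (Fin n × Bool) ⊕ Fin m ⊕ Fin m ⊕ Fin n ⊕ Fin n where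
  toFun
    | .z => .inl ()
    | .lit i b => .inr (.inl (i, b))
    | .p j => .inr (.inr (.inl j))
    | .p' j => .inr (.inr (.inr (.inl j)))
    | .q i => .inr (.inr (.inr (.inr (.inl i))))
    | .q' i => .inr (.inr (.inr (.inr (.inr i))))
  invFun
    | .inl _ => .z
    | .inr (.inl (i, b)) => .lit i b
    | .inr (.inr (.inl j)) => .p j
    | .inr (.inr (.inr (.inl j))) => .p' j
    | .inr (.inr (.inr (.inr (.inl i)))) => .q i
    | .inr (.inr (.inr (.inr (.inr i)))) => .q' i
  left_inv w := by cases w <;> rfl
  right_inv w := by rcases w with _ | ⟨_, _⟩ | _ | _ | _ | _ <;> rfl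

/-- The inner edges as a sum type. -/
def innerEdgeEquiv {n m : ℕ} (φ : CNF n m) :
    InnerEdge φ ≃ (Σ j : Fin m, {l // l ∈ φ j}) ⊕ Fin m ⊕ (Fin m × Fin 2) ⊕
      (Fin n × Bool) ⊕ Fin n ⊕ (Fin n × Fin 2) where
  toFun
    | .litP j l => .inl ⟨j, l⟩
    | .pp j => .inr (.inl j)
    | .pz j c => .inr (.inr (.inl (j, c)))
    | .litQ i b => .inr (.inr (.inr (.inl (i, b))))
    | .qq i => .inr (.inr (.inr (.inr (.inl i))))
    | .qz i c => .inr (.inr (.inr (.inr (.inr (i, c)))))
  invFun
    | .inl ⟨j, l⟩ => .litP j l
    | .inr (.inl j) => .pp j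
    | .inr (.inr (.inl (j, c))) => .pz j c
    | .inr (.inr (.inr (.inl (i, b)))) => .litQ i b
    | .inr (.inr (.inr (.inr (.inl i)))) => .qq i
    | .inr (.inr (.inr (.inr (.inr (i, c))))) => .qz i c
  left_inv w := by cases w <;> rfl
  right_inv w := by rcases w with ⟨_, _⟩ | _ | ⟨_, _⟩ | ⟨_, _⟩ | _ | ⟨_, _⟩ <;> rfl

/-- The edges as a sum type. -/
def edgeEquiv {n m : ℕ} (φ : CNF n m) (k : ℕ) :
    Edge φ k ≃ (Σ w : Inner n m, Fin (multS k w)) ⊕ (Σ w : Inner n m, Fin (multT k w)) ⊕
      InnerEdge φ where
  toFun
    | .toS w c => .inl ⟨w, c⟩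
    | .toT w c => .inr (.inl ⟨w, c⟩)
    | .inner f => .inr (.inr f)
  invFun
    | .inl ⟨w, c⟩ => .toS w c
    | .inr (.inl ⟨w, c⟩) => .toT w c
    | .inr (.inr f) => .inner f
  left_inv w := by cases w <;> rfl
  right_inv w := by rcases w with ⟨_, _⟩ | ⟨_, _⟩ | _ <;> rfl

/-- The vertices as a sum type. -/
def vtxEquiv (n m : ℕ) : Vtx n m ≃ Unit ⊕ Unit ⊕ Inner n m where
  toFun
    | .s => .inl ()
    | .t => .inr (.inl ())
    | .inner w => .inr (.inr w)
  invFun
    | .inl _ => .s
    | .inr (.inl _) => .t
    | .inr (.inr w) => .inner w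
  left_inv w := by cases w <;> rfl
  right_inv w := by rcases w with _ | _ | _ <;> rfl

theorem card_vtx (n m : ℕ) : Nat.card (Vtx n m) = 4 * n + 2 * m + 3 := by
  rw [Nat.card_congr ((vtxEquiv n m).trans (Equiv.sumCongr (Equiv.refl _)
    (Equiv.sumCongr (Equiv.refl _) (innerEquiv n m))))]
  simp only [Nat.card_eq_fintype_card, Fintype.card_sum, Fintype.card_unit, Fintype.card_prod,
    Fintype.card_fin, Fintype.card_bool]
  ring

theorem sum_inner {n m : ℕ} [Fintype (Inner n m)] (g : Inner n m → ℕ) :
    ∑ w, g w = g .z + ∑ i : Fin n, (g (.lit i true) + g (.lit i false)) + ∑ j : Fin m, g (.p j) +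
      ∑ j : Fin m, g (.p' j) + ∑ i : Fin n, g (.q i) + ∑ i : Fin n, g (.q' i) := by
  rw [← (innerEquiv n m).symm.sum_comp]
  simp only [Fintype.sum_sum_type, Fintype.sum_prod_type, innerEquiv, Equiv.coe_fn_symm_mk,
    Finset.univ_unique, Finset.sum_singleton, Fintype.sum_bool]
  ring

theorem card_edge {n m : ℕ} (φ : CNF n m) {k : ℕ} (hk : 2 ≤ k) :
    Nat.card (Edge φ k) + m = 8 * n * k + 4 * m * k + 2 * k + n + ∑ j, (φ j).card := by
  classical
  have : Fintype (Inner n m) := Fintype.ofFinite _
  have h1 : Nat.card (InnerEdge φ) = ∑ j, (φ j).card + 3 * m + 5 * n := by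
    rw [Nat.card_congr (innerEdgeEquiv φ)]
    simp only [Nat.card_eq_fintype_card, Fintype.card_sum, Fintype.card_sigma, Fintype.card_coe,
      Fintype.card_prod, Fintype.card_fin, Fintype.card_bool]
    ring
  have h2 : Nat.card (Σ w : Inner n m, Fin (multS k w)) = ∑ w : Inner n m, multS k w := by
    simp [Nat.card_eq_fintype_card]
  have h3 : Nat.card (Σ w : Inner n m, Fin (multT k w)) = ∑ w : Inner n m, multT k w := by
    simp [Nat.card_eq_fintype_card]
  rw [Nat.card_congr (edgeEquiv φ k), Nat.card_sum, Nat.card_sum, h1, h2, h3, sum_inner, sum_inner]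
  simp only [multS, multT, Finset.sum_const, Finset.card_univ, Fintype.card_fin, smul_eq_mul]
  obtain ⟨k', rfl⟩ := Nat.exists_eq_add_of_le hk
  have h4 : 2 + k' - 1 = k' + 1 := by omega
  have h5 : 2 + k' - 2 = k' := by omega
  rw [h4, h5]
  ring

end Size

/-- **Main theorem.**  For every `k ≥ 2` and every CNF formula `φ` with `n` variables and `m`
clauses, `φ` is satisfiable if and only if the graph `graph φ k` has an `(s, t, k)`-good
orientation.  The graph has `4 n + 2 m + 3` vertices and `(8 n + 4 m + 2) k + n - m + L` edges, where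
`L` is the number of literal occurrences in `φ`. -/
theorem reduction (k : ℕ) (hk : 2 ≤ k) {n m : ℕ} (φ : CNF n m) :
    (Satisfiable φ ↔ AcycST (graph φ k) .s .t k) ∧
      Nat.card (Vtx n m) = 4 * n + 2 * m + 3 ∧
      Nat.card (Edge φ k) + m = 8 * n * k + 4 * m * k + 2 * k + n + ∑ j, (φ j).card :=
  ⟨⟨good_of_satisfiable hk, satisfiable_of_good hk⟩, card_vtx n m, card_edge φ hk⟩

end Pool.Agent.Lib.MP_5d404d_lc
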